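import Pool.Agent.TH115.GD.Defs

/-!
# Elliptic surfaces with a section of order two: definitions
-/

set_option autoImplicit false
set_option linter.all false

open Polynomial IsDedekindDomain WeierstrassCurve WeierstrassCurve.Affine
open scoped Classical

namespace Pool.Agent.TH115.GD

/-- The curve `y ^ 2 = x (x ^ 2 + a x + b)`. -/
def crvT {K : Type*} [Field K] (a b : K) : WeierstrassCurve K := ⟨0, a, 0, b, 0⟩

section square

variable {F : Type*} [Field F] {W : Affine F}

/-- Representative of `x(Q)` modulo squares (`b` if `x(Q) = 0`). -/
noncomputable def dT (b : F) : W.Point → F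
  | .zero => 1
  | .some x _ _ => if x = 0 then b else x

end square

section conditions

variable {k : Type} [Field k]

/-- `p` is not a constant times a square, and not a constant times a norm of a polynomial over a
quadratic extension `k(√D)` of `k`. -/
def NotNorm (p : k[X]) : Prop :=
  ∀ (u D : k) (U V : k[X]), p = C u * (U ^ 2 - C D * V ^ 2) → V ≠ 0 ∧ IsSquare D

/-- Every monic squarefree divisor `A` of `b` over `k` is equal, up to squares of `F`, to `x(P)` for a
point `P` over `K` of the curve `y ^ 2 = x (x ^ 2 + a x + b)`. -/
def EnoughPointsT (K F : Type) [Field K] [Algebra k[X] K] [Field F] [Algebra K F] (a b : k[X]) :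
    Prop :=
  ∀ A : k[X], A.Monic → Squarefree A → A ∣ b →
    ∃ P : Pt (crvT (algebraMap k[X] K a) (algebraMap k[X] K b)) K,
      Represents K F A (dT (algebraMap k[X] K b) P)

end conditions

end Pool.Agent.TH115.GD
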