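import Pool.Agent.TH115.ID.Main
import Pool.Agent.TH115.SD.Gener
import Pool.Agent.TH115.SK.DecK

/-!
Surfaces with two irreducible discriminant factors.
-/

set_option autoImplicit false
set_option linter.all false

open Polynomial IsDedekindDomain WeierstrassCurve WeierstrassCurve.Affine
open scoped Classical

namespace Pool.Agent.TH115.GD

section poly

variable {k : Type} [Field k]

/-- Polynomials of odd degree are not constants times norms from quadratic extensions. -/
theorem notNorm_of_odd {p : k[X]} (h : Odd p.natDegree) : NotNorm p := by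
  intro u D U V e
  have hp : p ≠ 0 := by
    rintro rfl
    rw [natDegree_zero] at h
    exact absurd h (by decide)
  have hu : u ≠ 0 := by
    rintro rfl
    rw [C_0, zero_mul] at e
    exact hp e
  have hV : V ≠ 0 := by
    rintro rfl
    rw [zero_pow two_ne_zero, mul_zero, sub_zero] at e
    rw [e, natDegree_C_mul hu, natDegree_pow] at h
    exact (Nat.not_odd_iff_even.2 (even_two_mul _)) h
  refine ⟨hV, ?_⟩
  by_contra hD
  have hD0 : D ≠ 0 := by
    rintro rfl
    exact hD ⟨0, by ring⟩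
  rw [e, natDegree_C_mul hu] at h
  have hCV : (C D * V ^ 2).natDegree = 2 * V.natDegree := by
    rw [natDegree_C_mul hD0, natDegree_pow]
  have hUU : (U ^ 2).natDegree = 2 * U.natDegree := natDegree_pow _ _
  rcases lt_trichotomy U.natDegree V.natDegree with h1 | h1 | h1
  · rw [natDegree_sub_eq_right_of_natDegree_lt (by omega), hCV] at h
    exact (Nat.not_odd_iff_even.2 (even_two_mul _)) h
  · have hc : (U ^ 2 - C D * V ^ 2).coeff (2 * V.natDegree) =
        U.leadingCoeff ^ 2 - D * V.leadingCoeff ^ 2 := by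
      rw [coeff_sub, coeff_C_mul]
      have e1 : (U ^ 2).coeff (2 * V.natDegree) = U.leadingCoeff ^ 2 := by
        rw [← h1, ← hUU, coeff_natDegree, leadingCoeff_pow]
      have e2 : (V ^ 2).coeff (2 * V.natDegree) = V.leadingCoeff ^ 2 := by
        rw [← natDegree_pow, coeff_natDegree, leadingCoeff_pow]
      rw [e1, e2]
    have hV0 : V.leadingCoeff ≠ 0 := leadingCoeff_ne_zero.2 hV
    have hne : (U ^ 2 - C D * V ^ 2).coeff (2 * V.natDegree) ≠ 0 := by
      rw [hc]
      intro h3
      apply hD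
      refine ⟨U.leadingCoeff / V.leadingCoeff, ?_⟩
      field_simp
      linear_combination -h3
    have hle : (U ^ 2 - C D * V ^ 2).natDegree ≤ 2 * V.natDegree := by
      refine (natDegree_sub_le _ _).trans ?_
      rw [hUU, hCV, h1, max_self]
    have heq := le_antisymm hle (le_natDegree_of_ne_zero hne)
    rw [heq] at h
    exact (Nat.not_odd_iff_even.2 (even_two_mul _)) h
  · rw [natDegree_sub_eq_left_of_natDegree_lt (by omega), hUU] at h
    exact (Nat.not_odd_iff_even.2 (even_two_mul _)) h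

/-- Monic squarefree divisors of powers of irreducible polynomials. -/
theorem monic_dvd_pow {A π : k[X]} {u : k} {n : ℕ} (hu : u ≠ 0) (hπ : Irreducible π)
    (hA : A.Monic) (hs : Squarefree A) (hd : A ∣ C u * π ^ (2 * n + 1)) :
    A = 1 ∨ A = C π.leadingCoeff⁻¹ * π := by
  have hCu : IsUnit (C u) := isUnit_C.2 (isUnit_iff_ne_zero.2 hu)
  have h1 : A ∣ π ^ (2 * n + 1) := (hCu.dvd_mul_left).1 hd
  have h3 : A ∣ π := dvd_of_primes hs (fun q hq hqA => hq.prime.dvd_of_dvd_pow (hqA.trans h1))
  exact monic_dvd_irr hπ hA h3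

end poly

section core

variable {k k' K F : Type} [Field k] [Field k'] [Algebra k k'] [Field K] [Algebra k[X] K]
    [Field F] [Algebra k'[X] F] [IsFractionRing k'[X] F] [Algebra K F]

/-- The point `(0, 0)`. -/
theorem nons_zero {K : Type} [Field K] (a : K) {b : K} (hb : b ≠ 0) :
    ((crvT a b).baseChange K).toAffine.Nonsingular 0 0 := by
  rw [Affine.nonsingular_zero]
  refine ⟨map_zero _, Or.inr ?_⟩
  exact (_root_.map_ne_zero (algebraMap K K)).2 hb

theorem enough_pow (hT : IsTower k k' K F) (h2 : (2 : k) ≠ 0) {a b π : k[X]} {u : k} {n : ℕ}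
    (hu : u ≠ 0) (hπ : Irreducible π) (hb : b = C u * π ^ (2 * n + 1)) :
    EnoughPointsT K F a b := by
  haveI := hT.sep
  haveI := hT.fracK
  haveI : IsSepClosed k' := IsSepClosure.sep_closed k
  have hKF := hT.map
  have hb0 : b ≠ 0 := by
    rw [hb]
    exact mul_ne_zero (C_ne_zero.2 hu) (pow_ne_zero _ hπ.ne_zero)
  have hbK : algebraMap k[X] K b ≠ 0 := by simpa using hb0
  intro A hA hs hd
  rw [hb] at hd
  rcases monic_dvd_pow hu hπ hA hs hd with rfl | rfl
  · refine ⟨0, 1, one_ne_zero, ?_⟩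
    show algebraMap K F (algebraMap k[X] K 1) = 1 ^ 2 * algebraMap K F 1
    rw [map_one, one_pow, one_mul]
  · refine ⟨Point.some 0 0 (nons_zero _ hbK), ?_⟩
    have h2' : (2 : k') ≠ 0 := by
      rw [← map_ofNat (algebraMap k k') 2]
      exact (_root_.map_ne_zero _).2 h2
    haveI : NeZero ((2 : ℕ) : k') := ⟨by exact_mod_cast h2'⟩
    have hl : π.leadingCoeff ≠ 0 := leadingCoeff_ne_zero.2 hπ.ne_zero
    obtain ⟨s, hs⟩ := IsSepClosed.exists_pow_nat_eq
      (algebraMap k k' (π.leadingCoeff⁻¹ * u⁻¹)) 2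
    have hs0 : s ≠ 0 := by
      rintro rfl
      rw [zero_pow two_ne_zero] at hs
      exact (_root_.map_ne_zero _).2 (mul_ne_zero (inv_ne_zero hl) (inv_ne_zero hu)) hs.symm
    have hsF : algebraMap k'[X] F (C s) ≠ 0 := by simpa using hs0
    have hπF : algebraMap K F (algebraMap k[X] K π) ≠ 0 := by simpa using hπ.ne_zero
    refine ⟨algebraMap k'[X] F (C s) / algebraMap K F (algebraMap k[X] K π) ^ n,
      div_ne_zero hsF (pow_ne_zero _ hπF), ?_⟩
    have hsq : algebraMap k'[X] F (C s) ^ 2 =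
        algebraMap K F (algebraMap k[X] K (C (π.leadingCoeff⁻¹ * u⁻¹))) := by
      rw [← map_pow, ← C_pow, hs, hKF, map_C]
    have hd : dT (algebraMap k[X] K b) (Point.some 0 0 (nons_zero (algebraMap k[X] K a) hbK)) =
        algebraMap k[X] K b := by
      simp [dT]
    rw [hd, div_pow, hsq, hb]
    have hcu : algebraMap K F (algebraMap k[X] K (C u)) ≠ 0 := by simpa using hu
    have e1 : algebraMap K F (algebraMap k[X] K (C (π.leadingCoeff⁻¹ * u⁻¹))) *
        algebraMap K F (algebraMap k[X] K (C u)) =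
        algebraMap K F (algebraMap k[X] K (C π.leadingCoeff⁻¹)) := by
      rw [← map_mul, ← map_mul, ← C_mul]
      congr 4
      field_simp
    have e2 : algebraMap K F (algebraMap k[X] K (C u * π ^ (2 * n + 1))) =
        algebraMap K F (algebraMap k[X] K (C u)) *
          algebraMap K F (algebraMap k[X] K π) ^ (2 * n + 1) := by
      simp only [map_mul, map_pow]
    have e3 : algebraMap K F (algebraMap k[X] K (C π.leadingCoeff⁻¹ * π)) =
        algebraMap K F (algebraMap k[X] K (C π.leadingCoeff⁻¹)) *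
          algebraMap K F (algebraMap k[X] K π) := by
      simp only [map_mul]
    rw [e2, e3, ← e1]
    field_simp
    try ring

/-- **The generic surfaces.** -/
theorem genericT (hT : IsTower k k' K F) (h2 : (2 : k) ≠ 0) {a b π ρ : k[X]} {u v : k} {m n : ℕ}
    (hu : u ≠ 0) (hv : v ≠ 0) (hπ : Irreducible π) (hρ : Irreducible ρ) (sπ : π.Separable)
    (sρ : ρ.Separable) (hb : b = C u * π ^ (2 * m + 1))
    (hd : a ^ 2 - 4 * b = C v * ρ ^ (2 * n + 1)) (hNb : NotNorm b)
    (hNd : NotNorm (a ^ 2 - 4 * b)) :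
    TateAtTwo (F := F) k' (crvT (algebraMap k[X] K a) (algebraMap k[X] K b)) := by
  have hb0 : b ≠ 0 := by
    rw [hb]
    exact mul_ne_zero (C_ne_zero.2 hu) (pow_ne_zero _ hπ.ne_zero)
  have hd0 : a ^ 2 - 4 * b ≠ 0 := by
    rw [hd]
    exact mul_ne_zero (C_ne_zero.2 hv) (pow_ne_zero _ hρ.ne_zero)
  refine mainT hT h2 hb0 hd0 ?_ hNb hNd (enough_pow hT h2 hu hπ hb) (enough_pow hT h2 hv hρ hd)
  intro q hq hdv
  have hCu : IsUnit (C u) := isUnit_C.2 (isUnit_iff_ne_zero.2 hu)
  have hCv : IsUnit (C v) := isUnit_C.2 (isUnit_iff_ne_zero.2 hv)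
  have key : ∀ {q w : k[X]} {c : k} {N : ℕ}, c ≠ 0 → Irreducible q → Irreducible w →
      w.Separable → q ∣ C c * w ^ N → q.Separable := by
    intro q w c N hc hq hw hs hdv
    have hCc : IsUnit (C c) := isUnit_C.2 (isUnit_iff_ne_zero.2 hc)
    have h1 : q ∣ w ^ N := (hCc.dvd_mul_left).1 hdv
    exact hs.of_dvd (hq.prime.dvd_of_dvd_pow h1)
  rcases hq.prime.dvd_or_dvd hdv with h | h
  · rw [hb] at h
    exact key hu hq hπ sπ h
  · rw [hd] at h
    exact key hv hq hρ sρ h

end core

end Pool.Agent.TH115.GD
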