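import Pool.Agent.TH115.GD.Kum
import Pool.Agent.TH115.ID.Defs

/-!
Curves `y ^ 2 = x (x ^ 2 + a x + b)` over a field in which `x ^ 2 + a x + b` splits.
-/

set_option autoImplicit false
set_option linter.all false

open WeierstrassCurve WeierstrassCurve.Affine
open scoped Classical

namespace Pool.Agent.TH115.GD

section square

variable {F : Type*} [Field F] {W : Affine F} {a b : F}

theorem h0_symm (P : W.Point) : h0 a b P = h0 b a P := by
  unfold h0
  have e0 : r0 a b P = r0 b a P := by unfold r0; rw [mul_comm]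
  have e1 : r1 a b P = rg b a P := rfl
  have e2 : rg a b P = r1 b a P := rfl
  rw [e0, e1, e2, mul_comm (rg b a P)]

/-- The signs are additive. -/
theorem s_addA [IsSepClosed F] (hL : IsE W a b) {S T : W.Point} (hS : S + S = 0) (hT : T + T = 0) :
    s0 (S + T) = s0 S * s0 T ∧ s1 a (S + T) = s1 a S * s1 a T := by
  have hn : W.Nonsingular 0 0 := hL.nonsingular.2 (by ring)
  obtain ⟨P, hP⟩ := halve_sep hL (Point.some 0 0 hn)
  have hP0 : P + P ≠ 0 := by rw [hP]; exact Point.some_ne_zero _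
  have hPS : (P + S) + (P + S) = P + P := by rw [add_add_add_comm, hS, add_zero]
  have hST : (S + T) + (S + T) = 0 := by rw [add_add_add_comm, hS, hT, add_zero]
  obtain ⟨a0, a1⟩ := h_translate hL (P := P) hS (fun h => absurd h hP0)
  obtain ⟨b0, b1⟩ := h_translate hL (P := P + S) hT (fun h => absurd (hPS.symm.trans h) hP0)
  obtain ⟨c0, c1⟩ := h_translate hL (P := P) hST (fun h => absurd h hP0)
  have n0 := h0_ne hL P
  have n1 := h1_ne hL P
  rw [add_assoc, a0, c0] at b0
  rw [add_assoc, a1, c1] at b1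
  constructor
  · apply mul_right_cancel₀ n0
    rw [b0]; ring
  · apply mul_right_cancel₀ n1
    rw [b1]; ring

theorem h0_translate (h : IsE W a b) {P T : W.Point} (hT : T + T = 0)
    (hPT : P + P = 0 → s0 T = 1) : h0 a b (P + T) = s0 T * h0 a b P := by
  by_cases hP : P + P = 0
  · rw [hPT hP, one_mul]
    have h2 : (P + T) + (P + T) = 0 := by rw [add_add_add_comm, hT, add_zero, hP]
    unfold h0
    rw [if_pos hP, if_pos h2]
  · exact (h_translate h hT (fun h => absurd h hP)).1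

/-- The point `(0, 0)`. -/
noncomputable def pt0 (h : IsE W a b) : W.Point := Point.some 0 0 (h.nonsingular.2 (by ring))

theorem pt0_two (h : IsE W a b) : pt0 h + pt0 h = 0 :=
  (add_self_eq_zero_iff h _).2 rfl

theorem s0_pt0 (h : IsE W a b) : s0 (pt0 h) = 1 := by
  simp [pt0, s0]

theorem s1_pt0 (h : IsE W a b) : s1 a (pt0 h) = -1 := by
  simp [pt0, s1, Ne.symm h.nea]

theorem s0_zero : s0 (0 : W.Point) = 1 := rfl

theorem s1_zero : s1 a (0 : W.Point) = 1 := rfl

theorem one_ne_neg (h : IsE W a b) : (1 : F) ≠ -1 := by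
  intro h'
  exact h.two (by linear_combination h')

theorem tor_s0 (h : IsE W a b) {T : W.Point} (hT : T + T = 0) (e : s0 T = 1) :
    T = 0 ∨ T = pt0 h := by
  rcases tor_cases h hT with ⟨h1, -⟩ | ⟨hn, h1, -⟩ | ⟨hn, h1, h2, -⟩ | ⟨hn, h1, h2, -⟩
  · exact Or.inl h1
  · exact Or.inr h1
  · rw [h2] at e
    exact absurd e.symm (one_ne_neg h)
  · rw [h2] at e
    exact absurd e.symm (one_ne_neg h)

theorem dT_eq (P : W.Point) : dT (a * b) P = d0 a b P := by
  rcases P with _ | ⟨x, y, hxy⟩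
  · rfl
  · rfl

/-- Translation by `(0, 0)`. -/
theorem add_pt0 (h : IsE W a b) {x y : F} (hP : W.Nonsingular x y) (hy : y ≠ 0) :
    x ≠ 0 ∧ ∃ hQ, Point.some x y hP + pt0 h = Point.some (a * b / x) (-(a * b * y) / x ^ 2) hQ := by
  obtain ⟨h1, hQ, h3⟩ := add_tor h hP hy (e := 0) (h.nonsingular.2 (by ring)) (by ring)
  rw [sub_zero] at h1
  refine ⟨h1, ?_⟩
  have e : 3 * (0 : F) ^ 2 - 2 * (a + b) * 0 + a * b = a * b := by ring
  simp only [e, sub_zero, zero_add] at hQ h3
  exact ⟨hQ, h3⟩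

end square

universe u

section action

variable {K Ω Ω' : Type u} [Field K] [Field Ω] [Field Ω'] [Algebra K Ω] [Algebra K Ω'] {a b : K}

theorem dT_act (W : WeierstrassCurve K) (φ : Ω →ₐ[K] Ω') (b : Ω) (P : Pt W Ω) :
    dT (φ b) (act W φ P) = φ (dT b P) := by
  rcases P with _ | ⟨x, y, hxy⟩
  · rw [act_zero]; simp [dT]
  · obtain ⟨h, hh⟩ := act_some W φ hxy
    rw [hh]
    simp only [dT, map_eq_zero]
    split_ifs <;> simp

/-- `α`, `β` are the roots of `x ^ 2 + a x + b` in `Ω`. -/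
structure Roots (a b : K) (Ω : Type u) [Field Ω] [Algebra K Ω] (α β : Ω) : Prop where
  sum : α + β = -algebraMap K Ω a
  prod : α * β = algebraMap K Ω b
  E : IsE ((crvT a b).baseChange Ω).toAffine α β

theorem exists_roots [IsSepClosed Ω] (h2 : (2 : K) ≠ 0) (hb : b ≠ 0) (hd : a ^ 2 - 4 * b ≠ 0) :
    ∃ α β : Ω, Roots a b Ω α β := by
  have h2' : (2 : Ω) ≠ 0 := by
    rw [← map_ofNat (algebraMap K Ω) 2]
    exact (map_ne_zero _).2 h2
  have h4 : (4 : Ω) ≠ 0 := by
    have : (4 : Ω) = 2 * 2 := by norm_num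
    rw [this]
    exact mul_ne_zero h2' h2'
  haveI : NeZero ((2 : ℕ) : Ω) := ⟨by exact_mod_cast h2'⟩
  obtain ⟨s, hs⟩ := IsSepClosed.exists_pow_nat_eq (algebraMap K Ω (a ^ 2 - 4 * b)) 2
  have hs0 : s ≠ 0 := by
    rintro rfl
    rw [zero_pow two_ne_zero] at hs
    exact (map_ne_zero (algebraMap K Ω)).2 hd hs.symm
  have hs' : s ^ 2 = algebraMap K Ω a ^ 2 - 4 * algebraMap K Ω b := by
    rw [hs, map_sub, map_pow, map_mul, map_ofNat]
  set α := (-algebraMap K Ω a + s) / 2 with hα
  set β := (-algebraMap K Ω a - s) / 2 with hβ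
  have hsum : α + β = -algebraMap K Ω a := by rw [hα, hβ]; field_simp; ring
  have hprod : α * β = algebraMap K Ω b := by
    rw [hα, hβ]
    field_simp
    linear_combination -hs'
  have hb' : algebraMap K Ω b ≠ 0 := (map_ne_zero _).2 hb
  refine ⟨α, β, hsum, hprod, ?_⟩
  refine ⟨map_zero _, ?_, map_zero _, ?_, map_zero _, h2', ?_, ?_, ?_⟩
  · rw [hsum]; show algebraMap K Ω a = _; ring
  · rw [hprod]; rfl
  · intro h
    rw [h, zero_mul] at hprod
    exact hb' hprod.symm
  · intro h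
    rw [h, mul_zero] at hprod
    exact hb' hprod.symm
  · intro h
    apply hs0
    have : α - β = s := by rw [hα, hβ]; field_simp; ring
    rw [← this, h, sub_self]

variable {α β : Ω} (hR : Roots a b Ω α β)

include hR

theorem Roots.root {x : Ω} (h : x ^ 2 + algebraMap K Ω a * x + algebraMap K Ω b = 0) :
    x = α ∨ x = β := by
  have h1 : (x - α) * (x - β) = 0 := by
    linear_combination h - x * hR.sum + hR.prod
  rcases mul_eq_zero.1 h1 with h2 | h2
  · exact Or.inl (sub_eq_zero.1 h2)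
  · exact Or.inr (sub_eq_zero.1 h2)

theorem Roots.eq0 : α ^ 2 + algebraMap K Ω a * α + algebraMap K Ω b = 0 := by
  linear_combination α * hR.sum - hR.prod

theorem Roots.eq1 : β ^ 2 + algebraMap K Ω a * β + algebraMap K Ω b = 0 := by
  linear_combination β * hR.sum - hR.prod

/-- An endomorphism permutes the roots. -/
theorem Roots.perm (φ : Ω →ₐ[K] Ω) : (φ α = α ∧ φ β = β) ∨ (φ α = β ∧ φ β = α) := by
  have ha : φ α = α ∨ φ α = β := by
    apply hR.root
    have := congrArg φ hR.eq0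
    rw [map_add, map_add, map_mul, map_pow, φ.commutes, φ.commutes, map_zero] at this
    exact this
  have hb : φ β = α ∨ φ β = β := by
    apply hR.root
    have := congrArg φ hR.eq1
    rw [map_add, map_add, map_mul, map_pow, φ.commutes, φ.commutes, map_zero] at this
    exact this
  have hne := hR.E.neab
  rcases ha with h | h <;> rcases hb with h' | h'
  · exact absurd (φ.injective (h.trans h'.symm)) hne
  · exact Or.inl ⟨h, h'⟩
  · exact Or.inr ⟨h, h'⟩
  · exact absurd (φ.injective (h.trans h'.symm)) hne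

theorem Roots.h0_act (φ : Ω →ₐ[K] Ω) (P : Pt (crvT a b) Ω) :
    h0 α β (act (crvT a b) φ P) = φ (h0 α β P) := by
  have h1 := GD.h0_act (crvT a b) φ α β P
  rcases hR.perm φ with ⟨e0, e1⟩ | ⟨e0, e1⟩
  · rw [e0, e1] at h1
    exact h1
  · rw [e0, e1, h0_symm] at h1
    exact h1

theorem Roots.pt0_act (φ : Ω →ₐ[K] Ω) : act (crvT a b) φ (pt0 hR.E) = pt0 hR.E := by
  obtain ⟨h, hh⟩ := act_some (crvT a b) φ
    (hR.E.nonsingular.2 (by ring) : ((crvT a b).baseChange Ω).toAffine.Nonsingular 0 0)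
  unfold pt0
  rw [hh]
  simp only [map_zero]

omit hR in
theorem s0_fix (φ : Ω →ₐ[K] Ω) (T : Pt (crvT a b) Ω) : s0 (act (crvT a b) φ T) = s0 T := by
  rw [s0_act]
  rcases s0_sq T with h | h <;> rw [h] <;> simp

theorem Roots.d0_eq (P : Pt (crvT a b) Ω) : d0 α β P = dT (algebraMap K Ω b) P := by
  rw [← hR.prod, dT_eq]

end action

end Pool.Agent.TH115.GD
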