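import Pool.Agent.TH115.GD.Des
import Pool.Agent.TH115.ID.Basic

/-!
Kummer theory for the two steps of the descent by 2-isogeny.
-/

set_option autoImplicit false
set_option linter.all false

open WeierstrassCurve WeierstrassCurve.Affine
open scoped Classical

namespace Pool.Agent.TH115.GD

open Pool.Agent.W309.TD (locConst_apply exists_root compare)

universe u

section map

variable {K Ω Ω' : Type u} [Field K] [Field Ω] [Field Ω'] [Algebra K Ω] [Algebra K Ω'] {a b : K}
  {α β : Ω} (hR : Roots a b Ω α β)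

include hR in
theorem Roots.map (φ : Ω →ₐ[K] Ω') : Roots a b Ω' (φ α) (φ β) := by
  have hs : φ α + φ β = -algebraMap K Ω' a := by
    rw [← map_add, hR.sum, map_neg, φ.commutes]
  have hp : φ α * φ β = algebraMap K Ω' b := by
    rw [← map_mul, hR.prod, φ.commutes]
  refine ⟨hs, hp, map_zero _, ?_, map_zero _, ?_, map_zero _, ?_, ?_, ?_, ?_⟩
  · rw [hs]; show algebraMap K Ω' a = _; ring
  · rw [hp]; rfl
  · rw [← map_ofNat φ 2]
    exact (map_ne_zero _).2 hR.E.two
  · exact (map_ne_zero _).2 hR.E.nea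
  · exact (map_ne_zero _).2 hR.E.neb
  · exact fun h => hR.E.neab (φ.injective h)

end map

section cocycle

variable {K F Ω : Type u} [Field K] [Field F] [Field Ω] [Algebra K F] [Algebra F Ω] [Algebra K Ω]
  [IsScalarTower K F Ω] [IsGalois F Ω] [IsSepClosed Ω] {a b : K} {α β : Ω}
  (hR : Roots a b Ω α β)

include hR

omit [IsGalois F Ω] in
theorem sign0 {H : Pt (crvT a b) Ω}
    (hH : ∀ σ : Ω ≃ₐ[F] Ω, act (crvT a b) (rs K σ) (H + H) = H + H) (σ : Ω ≃ₐ[F] Ω) :
    (act (crvT a b) (rs K σ) H - H) + (act (crvT a b) (rs K σ) H - H) = 0 ∧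
    σ (h0 α β H) = s0 (act (crvT a b) (rs K σ) H - H) * h0 α β H := by
  set T := act (crvT a b) (rs K σ) H - H with hT
  have hTT : T + T = 0 := by
    have := hH σ
    rw [map_add] at this
    rw [hT, sub_add_sub_comm, this, sub_self]
  refine ⟨hTT, ?_⟩
  have hTH : act (crvT a b) (rs K σ) H = H + T := by rw [hT]; abel
  have hPT : H + H = 0 → s0 T = 1 := by
    intro h
    have e : T = act (crvT a b) (rs K σ) H + H := by
      rw [hT, sub_eq_add_neg, neg_eq_of_add_eq_zero_left h]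
    rw [e, (s_addA hR.E ((two_act _ _ _).2 h) h).1, s0_fix]
    rcases s0_sq H with h' | h' <;> rw [h'] <;> ring
  have h1 := hR.h0_act (rs K σ) H
  rw [hTH, h0_translate hR.E hTT hPT] at h1
  exact h1.symm

/-- The first Kummer generator. -/
theorem kummer0 {f : (Ω ≃ₐ[F] Ω) → Pt (crvT a b) Ω} (hf : IsCoc (crvT a b) f)
    (hf2 : ∀ σ, f σ + f σ = 0) :
    ∃ (t0 : Ω) (a0 : F), t0 ≠ 0 ∧ t0 ^ 2 = algebraMap F Ω a0 ∧ ∀ σ, σ t0 = s0 (f σ) * t0 :=
  exists_root (K := F) hR.E.two (fun σ => s0 (f σ)) (fun σ => s0_sq _) (fun σ τ => by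
      show s0 (f (σ * τ)) = s0 (f σ) * s0 (f τ)
      rw [hf.mul, (s_addA hR.E (hf2 σ) ((two_act _ _ _).2 (hf2 τ))).1, s0_fix]) (hf.lc.comp s0)

/-- The second Kummer generator. -/
theorem kummer1 {f : (Ω ≃ₐ[F] Ω) → Pt (crvT a b) Ω} (hf : IsCoc (crvT a b) f)
    (hf2 : ∀ σ, f σ = 0 ∨ f σ = pt0 hR.E) :
    ∃ (t1 : Ω) (a1 : F), t1 ≠ 0 ∧ t1 ^ 2 = algebraMap F Ω a1 ∧ ∀ σ, σ t1 = s1 α (f σ) * t1 := by
  have hz : ∀ σ, f σ + f σ = 0 := fun σ => by
    rcases hf2 σ with h | h
    · rw [h, add_zero]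
    · rw [h, pt0_two]
  exact exists_root (K := F) hR.E.two (fun σ => s1 α (f σ)) (fun σ => s1_sq _ _) (fun σ τ => by
      show s1 α (f (σ * τ)) = s1 α (f σ) * s1 α (f τ)
      have e : act (crvT a b) (rs K σ) (f τ) = f τ := by
        rcases hf2 τ with h | h
        · rw [h, map_zero]
        · rw [h, hR.pt0_act]
      rw [hf.mul, e, (s_addA hR.E (hz σ) (hz τ)).2]) (hf.lc.comp (s1 α))

omit [IsGalois F Ω] in
/-- If the first generator is that of a half `H` of a point, then `f` and the coboundary of `H` differ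
by `0` or `(0, 0)`. -/
theorem step0 {f : (Ω ≃ₐ[F] Ω) → Pt (crvT a b) Ω} (hf2 : ∀ σ, f σ + f σ = 0) {t0 : Ω} (n0 : t0 ≠ 0)
    (k0 : ∀ σ, σ t0 = s0 (f σ) * t0) {H : Pt (crvT a b) Ω}
    (hH : ∀ σ : Ω ≃ₐ[F] Ω, act (crvT a b) (rs K σ) (H + H) = H + H) {c0 : F}
    (e0 : t0 ^ 2 = algebraMap F Ω c0 ^ 2 * dT (algebraMap K Ω b) (H + H)) (σ : Ω ≃ₐ[F] Ω) :
    f σ - (act (crvT a b) (rs K σ) H - H) = 0 ∨
      f σ - (act (crvT a b) (rs K σ) H - H) = pt0 hR.E := by
  obtain ⟨hTT, m0⟩ := sign0 hR hH σ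
  rw [← hR.d0_eq, ← h0_sq hR.E, ← mul_pow] at e0
  have hn := neg_eq_of_add_eq_zero_left hTT
  have e : f σ - (act (crvT a b) (rs K σ) H - H) = f σ + (act (crvT a b) (rs K σ) H - H) := by
    rw [sub_eq_add_neg, hn]
  have key : s0 (f σ) = s0 (act (crvT a b) (rs K σ) H - H) := by
    have key : σ t0 = s0 (act (crvT a b) (rs K σ) H - H) * t0 := by
      rcases sq_eq_sq_iff_eq_or_eq_neg.1 e0 with h | h
      · rw [h, map_mul, σ.commutes, m0]; ring
      · rw [h, map_neg, map_mul, σ.commutes, m0]; ring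
    rw [k0] at key
    exact mul_right_cancel₀ n0 key
  apply tor_s0 hR.E
  · rw [e, add_add_add_comm, hf2, hTT, add_zero]
  · rw [e, (s_addA hR.E (hf2 σ) hTT).1, key]
    rcases s0_sq (act (crvT a b) (rs K σ) H - H) with h | h <;> rw [h] <;> ring

omit [IsGalois F Ω] in
/-- If the second generator is that of `H`, then `f` is the coboundary of `H`. -/
theorem step1 {f : (Ω ≃ₐ[F] Ω) → Pt (crvT a b) Ω} (hf2 : ∀ σ, f σ = 0 ∨ f σ = pt0 hR.E)
    {t1 : Ω} (n1 : t1 ≠ 0) (k1 : ∀ σ, σ t1 = s1 α (f σ) * t1) {H : Pt (crvT a b) Ω} {t : Ω}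
    (hH : ∀ σ : Ω ≃ₐ[F] Ω, (act (crvT a b) (rs K σ) H - H = 0 ∨
      act (crvT a b) (rs K σ) H - H = pt0 hR.E) ∧
      σ t = s1 α (act (crvT a b) (rs K σ) H - H) * t) {c1 : F}
    (e1 : t1 ^ 2 = algebraMap F Ω c1 ^ 2 * t ^ 2) (σ : Ω ≃ₐ[F] Ω) :
    f σ = act (crvT a b) (rs K σ) H - H := by
  obtain ⟨hT, m1⟩ := hH σ
  rw [← mul_pow] at e1
  have key : s1 α (f σ) = s1 α (act (crvT a b) (rs K σ) H - H) := by
    have key : σ t1 = s1 α (act (crvT a b) (rs K σ) H - H) * t1 := by
      rcases sq_eq_sq_iff_eq_or_eq_neg.1 e1 with h | h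
      · rw [h, map_mul, σ.commutes, m1]; ring
      · rw [h, map_neg, map_mul, σ.commutes, m1]; ring
    rw [k1] at key
    exact mul_right_cancel₀ n1 key
  have z1 : s1 α (0 : Pt (crvT a b) Ω) = 1 := rfl
  rcases hf2 σ with h | h <;> rcases hT with h' | h'
  · rw [h, h']
  · rw [h, h', z1, s1_pt0] at key
    exact absurd key (one_ne_neg hR.E)
  · rw [h, h', z1, s1_pt0] at key
    exact absurd key.symm (one_ne_neg hR.E)
  · rw [h, h']

end cocycle

section loc

variable {K F Ω L Ω' : Type u} [Field K] [Field F] [Field Ω] [Field L] [Field Ω']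
  [Algebra K F] [Algebra F Ω] [Algebra K Ω] [IsScalarTower K F Ω] [IsGalois F Ω]
  [Algebra K L] [Algebra F L] [IsScalarTower K F L]
  [Algebra L Ω'] [Algebra K Ω'] [Algebra F Ω'] [IsScalarTower K L Ω'] [IsScalarTower F L Ω']
  [IsScalarTower K F Ω'] [IsGalois L Ω'] [IsSepClosed Ω'] {a b : K} {α β : Ω}
  (hR : Roots a b Ω α β)

/-- Local solubility in the first step. -/
def LocT0 (a b : K) (L : Type u) [Field L] [Algebra K L] [Algebra F L] (a0 : F) : Prop :=
  ∃ (Q : Pt (crvT a b) L) (c : L), c ≠ 0 ∧ algebraMap F L a0 = c ^ 2 * dT (algebraMap K L b) Q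

/-- Local solubility in the second step. -/
def LocT1 (a b : K) (L : Type u) [Field L] [Algebra K L] [Algebra F L] (a1 : F) : Prop :=
  ∃ c z : L, c ≠ 0 ∧ algebraMap F L a1 = c ^ 2 * z ∧ (z = 1 ∨ z = algebraMap K L (a ^ 2 - 4 * b) ∨
    (z ≠ 0 ∧ ∃ w : L, (z - algebraMap K L a) ^ 2 - 4 * algebraMap K L b = 4 * w ^ 2 * z))

include hR

theorem loc0T {f : (Ω ≃ₐ[F] Ω) → Pt (crvT a b) Ω} (hf2 : ∀ σ, f σ + f σ = 0)
    (hloc : LocTriv (crvT a b) L Ω' f) {t0 : Ω} {a0 : F} (n0 : t0 ≠ 0)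
    (e0 : t0 ^ 2 = algebraMap F Ω a0) (k0 : ∀ σ, σ t0 = s0 (f σ) * t0) :
    LocT0 a b L a0 := by
  obtain ⟨ι, P, hP⟩ := hloc
  choose res hres using exists_restrict (F := F) (Ω := Ω) (L := L) (Ω' := Ω') ι
  set ι' : Ω →ₐ[K] Ω' := ι.restrictScalars K with hι'
  have hR' := hR.map ι'
  have hT : ∀ τ : Ω' ≃ₐ[L] Ω', act (crvT a b) ι' (f (res τ)) = act (crvT a b) (rs K τ) P - P :=
    fun τ => hP τ (res τ) (hres τ)
  have hTT : ∀ τ : Ω' ≃ₐ[L] Ω', act (crvT a b) ι' (f (res τ)) + act (crvT a b) ι' (f (res τ)) = 0 :=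
    fun τ => (two_act _ ι' _).2 (hf2 _)
  have hTP : ∀ τ : Ω' ≃ₐ[L] Ω', act (crvT a b) (rs K τ) P = P + act (crvT a b) ι' (f (res τ)) := by
    intro τ; rw [hT]; abel
  have hPP : ∀ τ : Ω' ≃ₐ[L] Ω', act (crvT a b) (rs K τ) (P + P) = P + P := by
    intro τ
    rw [map_add, hTP, add_add_add_comm, hTT, add_zero]
  obtain ⟨Q, hQ⟩ := fixed_point (K := K) (F := L) (crvT a b) (P + P) hPP
  have gb : incl K L Ω' (algebraMap K L b) = algebraMap K Ω' b :=
    (IsScalarTower.algebraMap_apply K L Ω' b).symm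
  have m0 : ∀ τ : Ω' ≃ₐ[L] Ω', τ (h0 (ι' α) (ι' β) P) =
      s0 (act (crvT a b) ι' (f (res τ))) * h0 (ι' α) (ι' β) P := by
    intro τ
    rw [hT]
    exact (sign0 hR' hPP τ).2
  have l0 : ∀ τ : Ω' ≃ₐ[L] Ω', τ (ι t0) = s0 (act (crvT a b) ι' (f (res τ))) * ι t0 := by
    intro τ
    rw [hres τ t0, k0, map_mul, s0_act]
    rfl
  obtain ⟨c0, hc0, q0⟩ := compare (K := L) ((map_ne_zero ι).2 n0) (h0_ne hR'.E P) _
    (fun τ => s0_ne _) l0 m0
  refine ⟨Q, c0, hc0, ?_⟩
  apply (algebraMap L Ω').injective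
  have w1 : (ι t0) ^ 2 = algebraMap F Ω' a0 := by rw [← map_pow, e0, ι.commutes]
  rw [← IsScalarTower.algebraMap_apply F L Ω', ← w1, q0, mul_pow, h0_sq hR'.E, ← hQ, hR'.d0_eq,
    ← gb, dT_act, map_mul, map_pow]
  rfl

theorem loc1T {f : (Ω ≃ₐ[F] Ω) → Pt (crvT a b) Ω} (hf2 : ∀ σ, f σ = 0 ∨ f σ = pt0 hR.E)
    (hloc : LocTriv (crvT a b) L Ω' f) {t1 : Ω} {a1 : F} (n1 : t1 ≠ 0)
    (e1 : t1 ^ 2 = algebraMap F Ω a1) (k1 : ∀ σ, σ t1 = s1 α (f σ) * t1) :
    LocT1 a b L a1 := by
  obtain ⟨ι, P, hP⟩ := hloc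
  choose res hres using exists_restrict (F := F) (Ω := Ω) (L := L) (Ω' := Ω') ι
  set ι' : Ω →ₐ[K] Ω' := ι.restrictScalars K with hι'
  have hR' := hR.map ι'
  have hT : ∀ τ : Ω' ≃ₐ[L] Ω', act (crvT a b) ι' (f (res τ)) = act (crvT a b) (rs K τ) P - P :=
    fun τ => hP τ (res τ) (hres τ)
  have hpt : act (crvT a b) ι' (pt0 hR.E) = pt0 hR'.E := by
    obtain ⟨h, hh⟩ := act_some (crvT a b) ι'
      (hR.E.nonsingular.2 (by ring) : ((crvT a b).baseChange Ω).toAffine.Nonsingular 0 0)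
    unfold pt0
    rw [hh]
    simp only [map_zero]
  -- the sign of `τ`
  have hε : ∀ τ : Ω' ≃ₐ[L] Ω',
      (act (crvT a b) (rs K τ) P - P = 0 ∧ τ (ι t1) = ι t1) ∨
      (act (crvT a b) (rs K τ) P - P = pt0 hR'.E ∧ τ (ι t1) = -ι t1) := by
    intro τ
    rcases hf2 (res τ) with h | h
    · left
      refine ⟨by rw [← hT, h, map_zero], ?_⟩
      rw [hres τ t1, k1, h]
      show ι (1 * t1) = _
      rw [one_mul]
    · right
      refine ⟨by rw [← hT, h, hpt], ?_⟩
      rw [hres τ t1, k1, h, s1_pt0, map_mul, map_neg, map_one]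
      ring
  have w1 : (ι t1) ^ 2 = algebraMap F Ω' a1 := by rw [← map_pow, e1, ι.commutes]
  have ιn1 : ι t1 ≠ 0 := (map_ne_zero ι).2 n1
  have inj := (algebraMap L Ω').injective
  have h2' : (2 : Ω') ≠ 0 := hR'.E.two
  -- the comparison with an element with the same signs
  have cmp : ∀ (u : Ω') (z : L), u ≠ 0 → u ^ 2 = algebraMap L Ω' z →
      (∀ τ : Ω' ≃ₐ[L] Ω', (act (crvT a b) (rs K τ) P - P = 0 → τ u = u) ∧
        (act (crvT a b) (rs K τ) P - P = pt0 hR'.E → τ u = -u)) →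
      ∃ c : L, c ≠ 0 ∧ algebraMap F L a1 = c ^ 2 * z := by
    intro u z hu hz hτ
    obtain ⟨c, hc, q⟩ := compare (K := L) ιn1 hu
      (fun τ => if act (crvT a b) (rs K τ) P - P = 0 then 1 else -1)
      (fun τ => by split_ifs <;> simp) (fun τ => by
        rcases hε τ with ⟨h, h'⟩ | ⟨h, h'⟩
        · rw [if_pos h, h', one_mul]
        · rw [if_neg (by rw [h]; exact Point.some_ne_zero _), h']; ring) (fun τ => by
        rcases hε τ with ⟨h, -⟩ | ⟨h, -⟩
        · rw [if_pos h, (hτ τ).1 h, one_mul]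
        · rw [if_neg (by rw [h]; exact Point.some_ne_zero _), (hτ τ).2 h]; ring)
    refine ⟨c, hc, inj ?_⟩
    rw [← IsScalarTower.algebraMap_apply F L Ω', ← w1, q, mul_pow, hz, map_mul, map_pow]
  have ga : algebraMap K Ω' a = algebraMap L Ω' (algebraMap K L a) :=
    IsScalarTower.algebraMap_apply K L Ω' a
  have gb : algebraMap K Ω' b = algebraMap L Ω' (algebraMap K L b) :=
    IsScalarTower.algebraMap_apply K L Ω' b
  have hPτ : ∀ τ : Ω' ≃ₐ[L] Ω', act (crvT a b) (rs K τ) P - P = 0 →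
      act (crvT a b) (rs K τ) P = P := fun τ h => sub_eq_zero.1 h
  have hPτ' : ∀ τ : Ω' ≃ₐ[L] Ω', act (crvT a b) (rs K τ) P - P = pt0 hR'.E →
      act (crvT a b) (rs K τ) P = P + pt0 hR'.E := fun τ h => by
    rw [← h]; abel
  have hne0 : pt0 hR'.E ≠ 0 := Point.some_ne_zero _
  rcases P with _ | ⟨x, y, hxy⟩
  · -- `P = 0`
    obtain ⟨c, hc, e⟩ := cmp 1 1 one_ne_zero (by rw [one_pow, map_one]) (fun τ =>
      ⟨fun _ => map_one τ, fun h => by
        exfalso
        have h3 := hPτ' τ h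
        rw [act_zero, ← Point.zero_def, zero_add] at h3
        exact hne0 h3.symm⟩)
    exact ⟨c, 1, hc, e, Or.inl rfl⟩
  · have hact : ∀ τ : Ω' ≃ₐ[L] Ω', ∃ h, act (crvT a b) (rs K τ) (Point.some x y hxy) =
        Point.some (τ x) (τ y) h := fun τ => act_some (crvT a b) (rs K τ) hxy
    by_cases hy : y = 0
    · subst hy
      by_cases hx : x = 0
      · -- `P = (0, 0)`
        subst hx
        obtain ⟨c, hc, e⟩ := cmp 1 1 one_ne_zero (by rw [one_pow, map_one]) (fun τ =>
          ⟨fun _ => map_one τ, fun h => by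
            exfalso
            obtain ⟨h4, h5⟩ := hact τ
            rw [h5] at h
            apply hne0
            rw [← h, sub_eq_zero]
            simp⟩)
        exact ⟨c, 1, hc, e, Or.inl rfl⟩
      · -- `P` is another point of order two
        have hroot : x ^ 2 + algebraMap K Ω' a * x + algebraMap K Ω' b = 0 := by
          have h3 := (hR'.E.nonsingular.1 hxy)
          have h4 : x * (x ^ 2 + algebraMap K Ω' a * x + algebraMap K Ω' b) = 0 := by
            linear_combination -h3 + x ^ 2 * hR'.sum - x * hR'.prod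
          exact (mul_eq_zero.1 h4).resolve_left hx
        have husq : (2 * x + algebraMap K Ω' a) ^ 2 = algebraMap L Ω' (algebraMap K L (a ^ 2 - 4 * b)) := by
          rw [← IsScalarTower.algebraMap_apply K L Ω', map_sub, map_mul, map_pow, map_ofNat]
          linear_combination 4 * hroot
        have hu0 : 2 * x + algebraMap K Ω' a ≠ 0 := by
          intro h
          rcases hR'.root hroot with h3 | h3
          · apply hR'.E.neab
            linear_combination h - 2 * h3 - hR'.sum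
          · apply hR'.E.neab
            linear_combination hR'.sum - h + 2 * h3
        obtain ⟨c, hc, e⟩ := cmp (2 * x + algebraMap K Ω' a) _ hu0 husq (fun τ => by
          obtain ⟨h4, h5⟩ := hact τ
          have hta : τ (algebraMap K Ω' a) = algebraMap K Ω' a := by rw [ga, τ.commutes]
          have htb : τ (algebraMap K Ω' b) = algebraMap K Ω' b := by rw [gb, τ.commutes]
          refine ⟨fun h => ?_, fun h => ?_⟩
          · have h6 := hPτ τ h
            rw [h5] at h6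
            rw [map_add, map_mul, map_ofNat, hta, (Point.some.inj h6).1]
          · have hτx : τ x ≠ x := by
              intro h6
              have h7 := hPτ' τ h
              rw [h5] at h7
              simp only [h6, map_zero] at h7
              exact hne0 (left_eq_add.1 h7)
            have hroot' : (τ x) ^ 2 + algebraMap K Ω' a * τ x + algebraMap K Ω' b = 0 := by
              have := congrArg τ hroot
              rw [map_add, map_add, map_mul, map_pow, hta, htb, map_zero] at this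
              exact this
            have hmul : (τ x - x) * (τ x + x + algebraMap K Ω' a) = 0 := by
              linear_combination hroot' - hroot
            have h8 := (mul_eq_zero.1 hmul).resolve_left (sub_ne_zero.2 hτx)
            rw [map_add, map_mul, map_ofNat, hta]
            linear_combination 2 * h8)
        exact ⟨c, _, hc, e, Or.inr (Or.inl rfl)⟩
    · -- the general case
      obtain ⟨hx, hQ, hadd⟩ := add_pt0 hR'.E hxy hy
      have hx' := hx
      have hb' : algebraMap K Ω' b ≠ 0 := by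
        rw [← hR'.prod]
        exact mul_ne_zero hR'.E.nea hR'.E.neb
      have heq := hR'.E.nonsingular.1 hxy
      have heq' : y ^ 2 = x * (x ^ 2 + algebraMap K Ω' a * x + algebraMap K Ω' b) := by
        linear_combination heq - x ^ 2 * hR'.sum + x * hR'.prod
      obtain ⟨hQ', hadd'⟩ : ∃ hQ', Point.some x y hxy + pt0 hR'.E =
          Point.some (algebraMap K Ω' b / x) (-(algebraMap K Ω' b * y) / x ^ 2) hQ' := by
        rw [← hR'.prod]
        exact ⟨hQ, hadd⟩
      have hcase : ∀ τ : Ω' ≃ₐ[L] Ω',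
          (act (crvT a b) (rs K τ) (Point.some x y hxy) - Point.some x y hxy = 0 →
            τ x = x ∧ τ y = y) ∧
          (act (crvT a b) (rs K τ) (Point.some x y hxy) - Point.some x y hxy = pt0 hR'.E →
            τ x = algebraMap K Ω' b / x ∧ τ y = -(algebraMap K Ω' b * y) / x ^ 2) := by
        intro τ
        obtain ⟨h4, h5⟩ := hact τ
        refine ⟨fun h => ?_, fun h => ?_⟩
        · have h6 := hPτ τ h
          rw [h5] at h6
          exact Point.some.inj h6
        · have h6 := hPτ' τ h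
          rw [h5, hadd'] at h6
          exact Point.some.inj h6
      have hall : ∀ τ : Ω' ≃ₐ[L] Ω', (τ x = x ∧ τ y = y) ∨
          (τ x = algebraMap K Ω' b / x ∧ τ y = -(algebraMap K Ω' b * y) / x ^ 2) := by
        intro τ
        rcases hε τ with ⟨h, -⟩ | ⟨h, -⟩
        · exact Or.inl ((hcase τ).1 h)
        · exact Or.inr ((hcase τ).2 h)
      have htb : ∀ τ : Ω' ≃ₐ[L] Ω', τ (algebraMap K Ω' b) = algebraMap K Ω' b :=
        fun τ => by rw [gb, τ.commutes]
      -- `u = y / x`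
      obtain ⟨z, hz⟩ : (y / x) ^ 2 ∈ Set.range (algebraMap L Ω') := by
        rw [InfiniteGalois.mem_range_algebraMap_iff_fixed]
        intro τ
        rw [map_pow, map_div₀]
        rcases hall τ with ⟨h, h'⟩ | ⟨h, h'⟩
        · rw [h, h']
        · rw [h, h']
          field_simp
      obtain ⟨w, hw⟩ : (x ^ 2 - algebraMap K Ω' b) / (2 * y) ∈ Set.range (algebraMap L Ω') := by
        rw [InfiniteGalois.mem_range_algebraMap_iff_fixed]
        intro τ
        rw [map_div₀, map_sub, map_pow, map_mul, map_ofNat, htb]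
        rcases hall τ with ⟨h, h'⟩ | ⟨h, h'⟩
        · rw [h, h']
        · rw [h, h']
          field_simp
          ring
      obtain ⟨c, hc, e⟩ := cmp (y / x) z (div_ne_zero hy hx) hz.symm (fun τ => by
        refine ⟨fun h => ?_, fun h => ?_⟩
        · obtain ⟨h3, h4⟩ := (hcase τ).1 h
          rw [map_div₀, h3, h4]
        · obtain ⟨h3, h4⟩ := (hcase τ).2 h
          rw [map_div₀, h3, h4]
          field_simp)
      refine ⟨c, z, hc, e, Or.inr (Or.inr ⟨?_, w, ?_⟩)⟩
      · rintro rfl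
        rw [map_zero] at hz
        exact pow_ne_zero 2 (div_ne_zero hy hx) hz.symm
      · apply inj
        rw [map_sub, map_mul, map_mul, map_mul, map_pow, map_pow, map_sub, hz, hw, map_ofNat, ← ga,
          ← gb]
        have e3 : (y / x) ^ 2 = (x ^ 2 + algebraMap K Ω' a * x + algebraMap K Ω' b) / x := by
          rw [div_pow, heq']
          field_simp
        rw [e3]
        field_simp
        rw [heq']
        ring

end loc

end Pool.Agent.TH115.GD
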