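import Pool.Agent.TH115.GD.Final
import Pool.Agent.TH115.ID.Kum

/-!
Valuations of the Kummer generators.
-/

set_option autoImplicit false
set_option linter.all false

open Polynomial IsDedekindDomain WeierstrassCurve WeierstrassCurve.Affine
open scoped Classical

namespace Pool.Agent.TH115.GD

section val

variable {L : Type*} [Field L] (v : Valuation L (WithZero (Multiplicative ℤ)))

theorem v_dom {x p q : L} (hx : 1 < v x) (hp : v p ≤ 1) (hq : v q ≤ 1) :
    v (x ^ 2 + p * x + q) = v x ^ 2 := by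
  have hx0 : v x ≠ 0 := fun h => by rw [h] at hx; exact absurd hx (by simp)
  have h1 : v (p * x + q) < v (x ^ 2) := by
    rw [map_pow]
    refine lt_of_le_of_lt (v.map_add _ _) (max_lt ?_ ?_)
    · rw [map_mul, pow_two]
      refine lt_of_le_of_lt (mul_le_mul_left hp (v x)) ?_
      rw [one_mul]
      exact lt_mul_of_one_lt_left (zero_lt_iff.2 hx0) hx
    · refine lt_of_le_of_lt hq ?_
      rw [pow_two]
      exact lt_of_lt_of_le hx (le_mul_of_one_le_left' hx.le)
  rw [add_assoc, Valuation.map_add_eq_of_lt_left v h1, map_pow]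

theorem v_unit {x p q : L} (hx : v x < 1) (hp : v p ≤ 1) (hq : v q = 1) :
    v (x ^ 2 + p * x + q) = 1 := by
  have h1 : v (x ^ 2 + p * x) < v q := by
    rw [hq]
    have e : x ^ 2 + p * x = x * (x + p) := by ring
    rw [e, map_mul]
    have h3 : v (x + p) ≤ 1 := (v.map_add _ _).trans (max_le hx.le hp)
    exact lt_of_le_of_lt (mul_le_mul_right h3 (v x)) (by rw [mul_one]; exact hx)
  rw [Valuation.map_add_eq_of_lt_right v h1, hq]

theorem evA {a b x y : L} (ha : v a ≤ 1) (hb : v b = 1) (hx : x ≠ 0)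
    (h : y ^ 2 = x * (x ^ 2 + a * x + b)) : IsSquare (v x) := by
  have hx0 : v x ≠ 0 := (Valuation.ne_zero_iff v).2 hx
  have hv := congrArg v h
  rw [map_pow, map_mul] at hv
  rcases lt_trichotomy (v x) 1 with h1 | h1 | h1
  · rw [v_unit v h1 ha hb, mul_one] at hv
    exact ⟨v y, by rw [← hv, pow_two]⟩
  · rw [h1]
    exact ⟨1, (mul_one 1).symm⟩
  · rw [v_dom v h1 ha hb.le] at hv
    refine ⟨v y / v x, ?_⟩
    field_simp
    rw [hv]
    exact pow_succ' _ 2

theorem evB {a b z w : L} (h2 : v 2 ≤ 1) (ha : v a ≤ 1) (hb : v (a ^ 2 - 4 * b) = 1) (hz : z ≠ 0)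
    (h : (z - a) ^ 2 - 4 * b = 4 * w ^ 2 * z) : IsSquare (v z) := by
  have hz0 : v z ≠ 0 := (Valuation.ne_zero_iff v).2 hz
  have h' : z ^ 2 + (-(2 * a)) * z + (a ^ 2 - 4 * b) = (2 * w) ^ 2 * z := by linear_combination h
  have hp : v (-(2 * a)) ≤ 1 := by
    rw [Valuation.map_neg, map_mul]
    exact mul_le_one' h2 ha
  have hv := congrArg v h'
  rw [map_mul (v) ((2 * w) ^ 2), map_pow] at hv
  rcases lt_trichotomy (v z) 1 with h1 | h1 | h1
  · rw [v_unit v h1 hp hb] at hv
    refine ⟨(v (2 * w))⁻¹, ?_⟩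
    have hw : v (2 * w) ≠ 0 := by
      intro h3
      rw [h3] at hv
      simp at hv
    field_simp
    rw [mul_comm]
    exact hv.symm
  · rw [h1]
    exact ⟨1, (mul_one 1).symm⟩
  · rw [v_dom v h1 hp hb.le] at hv
    refine ⟨v (2 * w), ?_⟩
    have : v z * v z = v (2 * w) ^ 2 * v z := by rw [← hv, pow_two]
    have h3 := mul_right_cancel₀ hz0 this
    rw [h3, pow_two]

end val

section gen

variable {K F L : Type} [Field K] [Field F] [Field L] [Algebra K F] [Algebra K L]
  [Algebra F L] [IsScalarTower K F L] {a b : K} (h2 : (2 : K) ≠ 0) (hb : b ≠ 0)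
  (hd : a ^ 2 - 4 * b ≠ 0)
  (w : Valuation L (WithZero (Multiplicative ℤ)))
  (v : Valuation F (WithZero (Multiplicative ℤ))) (hwv : ∀ x : F, w (algebraMap F L x) = v x)

/-- The equation of a point. -/
theorem crvT_eq {K L : Type*} [Field K] [Field L] [Algebra K L] {a b : K} {x y : L}
    (h : ((crvT a b).baseChange L).toAffine.Nonsingular x y) :
    y ^ 2 = x * (x ^ 2 + algebraMap K L a * x + algebraMap K L b) := by
  have h1 := h.1
  rw [Affine.equation_iff] at h1
  have e1 : ((crvT a b).baseChange L).toAffine.a₁ = 0 := map_zero _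
  have e2 : ((crvT a b).baseChange L).toAffine.a₂ = algebraMap K L a := rfl
  have e3 : ((crvT a b).baseChange L).toAffine.a₃ = 0 := map_zero _
  have e4 : ((crvT a b).baseChange L).toAffine.a₄ = algebraMap K L b := rfl
  have e6 : ((crvT a b).baseChange L).toAffine.a₆ = 0 := map_zero _
  rw [e1, e2, e3, e4, e6] at h1
  linear_combination h1

include hwv in
theorem gen0 (va : v (algebraMap K F a) ≤ 1) (vb : v (algebraMap K F b) = 1) {a0 : F}
    (hs : LocT0 a b L a0) : IsSquare (v a0) := by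
  obtain ⟨Q, c, hc, e⟩ := hs
  have wa : w (algebraMap K L a) ≤ 1 := by
    rw [IsScalarTower.algebraMap_apply K F L, hwv]; exact va
  have wb : w (algebraMap K L b) = 1 := by
    rw [IsScalarTower.algebraMap_apply K F L, hwv]; exact vb
  rw [← hwv, e, map_mul, map_pow, pow_two]
  refine IsSquare.mul ⟨_, rfl⟩ ?_
  rcases Q with _ | ⟨x, y, hxy⟩
  · simp only [dT, map_one]
    exact ⟨1, (mul_one 1).symm⟩
  · simp only [dT]
    split_ifs with hx
    · rw [wb]; exact ⟨1, (mul_one 1).symm⟩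
    · exact evA w wa wb hx (crvT_eq hxy)

include hwv in
theorem gen1 (v2 : v 2 ≤ 1) (va : v (algebraMap K F a) ≤ 1)
    (vb : v (algebraMap K F (a ^ 2 - 4 * b)) = 1) {a1 : F}
    (hs : LocT1 a b L a1) : IsSquare (v a1) := by
  obtain ⟨c, z, hc, e, hz⟩ := hs
  have wa : w (algebraMap K L a) ≤ 1 := by
    rw [IsScalarTower.algebraMap_apply K F L, hwv]; exact va
  have wb : w (algebraMap K L (a ^ 2 - 4 * b)) = 1 := by
    rw [IsScalarTower.algebraMap_apply K F L, hwv]; exact vb
  have w2 : w 2 ≤ 1 := by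
    have := hwv 2
    rw [map_ofNat] at this
    rw [this]; exact v2
  rw [← hwv, e, map_mul, map_pow, pow_two]
  refine IsSquare.mul ⟨_, rfl⟩ ?_
  rcases hz with rfl | rfl | ⟨hz, r, hr⟩
  · rw [map_one]; exact ⟨1, (mul_one 1).symm⟩
  · rw [wb]; exact ⟨1, (mul_one 1).symm⟩
  · rw [map_sub, map_mul, map_pow, map_ofNat] at wb
    exact evB w w2 wa wb hz hr

end gen

end Pool.Agent.TH115.GD
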