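import Pool.Agent.TH115.GD.Crit
import Pool.Agent.TH115.SK.DecK
import Pool.Agent.TH115.ID.Val

/-!
The global step in one variable.
-/

set_option autoImplicit false
set_option linter.all false

open Polynomial IsDedekindDomain WeierstrassCurve WeierstrassCurve.Affine
open scoped Classical

namespace Pool.Agent.TH115.GD

section sep

variable {k : Type} [Field k]

theorem sep_of_sqf {p : k[X]} (hp : p ≠ 0) (hs : Squarefree p)
    (h : ∀ π : k[X], Irreducible π → π ∣ p → π.Separable) : p.Separable := by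
  revert hp hs h
  refine WfDvdMonoid.induction_on_irreducible p ?_ ?_ ?_
  · intro hp
    exact absurd rfl hp
  · intro u hu _ _ _
    obtain ⟨c, hc, rfl⟩ := Polynomial.isUnit_iff.1 hu
    exact (separable_C c).2 hc
  · intro q π hq hπ ih hp hs h
    have hs' := squarefree_mul_iff.1 hs
    refine Separable.mul (h π hπ (dvd_mul_right _ _)) (ih hq hs'.2.2 fun π' h1 h2 =>
      h π' h1 (h2.mul_left _)) ?_
    exact (hπ.coprime_iff_not_dvd).2 fun hd => hπ.not_isUnit (hs'.1 dvd_rfl hd)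

variable {k' : Type} [Field k'] [Algebra k k'] [IsGalois k k']

/-- Galois descent for polynomials. -/
theorem desc_poly {P : k'[X]} (h : ∀ s : k' ≃ₐ[k] k', P.map (s : k' →+* k') = P) :
    ∃ Q : k[X], Q.map (algebraMap k k') = P := by
  have hl : P ∈ Polynomial.lifts (algebraMap k k') := by
    rw [Polynomial.lifts_iff_coeff_lifts]
    intro n
    rw [InfiniteGalois.mem_range_algebraMap_iff_fixed]
    intro s
    have h1 := congrArg (fun p => p.coeff n) (h s)
    simp only [coeff_map] at h1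
    exact h1
  exact (Polynomial.mem_lifts _).1 hl

/-- The image of a product of linear factors. -/
theorem map_prod_lin (s : k' ≃ₐ[k] k') (D D' : Finset k') (h : ∀ θ ∈ D, s θ ∈ D')
    (h' : ∀ θ ∈ D', s.symm θ ∈ D) :
    (∏ θ ∈ D, (X - C θ)).map (s : k' →+* k') = ∏ θ ∈ D', (X - C θ) := by
  rw [Polynomial.map_prod]
  have himg : D.image s = D' := by
    ext θ
    rw [Finset.mem_image]
    constructor
    · rintro ⟨x, hx, rfl⟩
      exact h x hx
    · intro hθ
      exact ⟨s.symm θ, h' θ hθ, s.apply_symm_apply θ⟩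
  conv_rhs => rw [← himg]
  rw [Finset.prod_image (fun x _ y _ h => s.injective h)]
  refine Finset.prod_congr rfl fun θ _ => ?_
  rw [Polynomial.map_sub, map_X, map_C]
  rfl

end sep

section core

variable {k k' K F Ω : Type} [Field k] [Field k'] [Algebra k k'] [IsSepClosure k k']
  [Field K] [Algebra k[X] K] [IsFractionRing k[X] K] [Field F] [Algebra k'[X] F]
  [IsFractionRing k'[X] F] [Algebra K F]
  (hKF : ∀ p : k[X], algebraMap K F (algebraMap k[X] K p) =
    algebraMap k'[X] F (p.map (algebraMap k k')))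
  (h2 : (2 : k) ≠ 0) {p : k[X]} (hp : p ≠ 0)
  (hsep : ∀ π : k[X], Irreducible π → π ∣ p → π.Separable) (hN : NotNorm p)

include h2 hp hsep hN in
/-- The two classes of a partition of the roots of odd multiplicity are not exchanged. -/
theorem no_swapN (f : k' → ZMod 2) (hf : ∀ s : k' ≃ₐ[k] k',
      (∀ θ, f (s θ) = f θ) ∨
      ∀ θ, f θ = f (s θ) + (rootMultiplicity (s θ) (p.map (algebraMap k k')) : ZMod 2))
    (s : k' ≃ₐ[k] k') (θ : k') : f (s θ) = f θ := by
  haveI : IsSepClosed k' := IsSepClosure.sep_closed k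
  haveI : IsGalois k k' := inferInstance
  obtain ⟨r, S, T, hr, hS, hS', hT, hpe⟩ := sq_dec _ p rfl hp
  have injk := (algebraMap k k').injective
  set ι := algebraMap k k' with hι
  have hSp : S ∣ p := ⟨C r * T ^ 2, by rw [hpe]; ring⟩
  have hSsep : S.Separable := sep_of_sqf hS.ne_zero hS' fun π h1 h3 => hsep π h1 (h3.trans hSp)
  have hSm : (S.map ι).Separable := hSsep.map
  have hSs : (S.map ι).Splits := splits_dvd (k' := k') hSp hp (splits_of_sep hp hsep)
  set O : Finset k' := (S.map ι).roots.toFinset with hO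
  have hSprod : S.map ι = ∏ θ ∈ O, (X - C θ) := by
    have h1 := hSs.eq_prod_roots
    rw [(hS.map ι).leadingCoeff, C_1, one_mul] at h1
    have hnd : (S.map ι).roots.Nodup := nodup_roots hSm
    rw [h1]
    rw [Finset.prod_eq_multiset_prod, hO, Multiset.toFinset_val, Multiset.dedup_eq_self.2 hnd]
  have hSn : S.map ι ≠ 0 := (Polynomial.map_ne_zero_iff injk).2 hS.ne_zero
  have hTn : T.map ι ≠ 0 := (Polynomial.map_ne_zero_iff injk).2 hT
  have hmem : ∀ θ, θ ∈ O ↔ (S.map ι).IsRoot θ := fun θ => by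
    rw [hO, Multiset.mem_toFinset, mem_roots hSn]
  have hmult : ∀ θ, (rootMultiplicity θ (p.map ι) : ZMod 2) = if θ ∈ O then 1 else 0 := by
    intro θ
    have e : p.map ι = C (ι r) * S.map ι * T.map ι ^ 2 := by
      rw [hpe, Polynomial.map_mul, Polynomial.map_mul, Polynomial.map_pow, map_C]
    have hCr : C (ι r) ≠ 0 := C_ne_zero.2 ((_root_.map_ne_zero ι).2 hr)
    rw [e, rootMultiplicity_mul (mul_ne_zero (mul_ne_zero hCr hSn) (pow_ne_zero 2 hTn)),
      rootMultiplicity_mul (mul_ne_zero hCr hSn), rootMultiplicity_C, zero_add, pow_two,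
      rootMultiplicity_mul (mul_ne_zero hTn hTn), Nat.cast_add, Nat.cast_add]
    have h3 : ((rootMultiplicity θ (T.map ι) : ℕ) : ZMod 2) +
        ((rootMultiplicity θ (T.map ι) : ℕ) : ZMod 2) = 0 := by
      have : ∀ z : ZMod 2, z + z = 0 := by decide
      exact this _
    rw [h3, add_zero]
    split_ifs with h
    · have h4 : rootMultiplicity θ (S.map ι) ≤ 1 := rootMultiplicity_le_one_of_separable hSm θ
      have h5 : 0 < rootMultiplicity θ (S.map ι) := (rootMultiplicity_pos hSn).2 ((hmem θ).1 h)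
      have h6 : rootMultiplicity θ (S.map ι) = 1 := by omega
      rw [h6, Nat.cast_one]
    · rw [rootMultiplicity_eq_zero (fun h' => h ((hmem θ).2 h')), Nat.cast_zero]
  have hOs : ∀ (s : k' ≃ₐ[k] k') θ, θ ∈ O → s θ ∈ O := by
    intro s θ h
    rw [hmem, IsRoot.def, hι, eval_map_algebraMap] at h ⊢
    have h5 : aeval (s θ) S = s (aeval θ S) := Polynomial.aeval_algHom_apply s.toAlgHom θ S
    rw [h5, h, map_zero]
  have hOs' : ∀ (s : k' ≃ₐ[k] k') θ, s θ ∈ O ↔ θ ∈ O := by
    intro s θ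
    refine ⟨fun h => ?_, hOs s θ⟩
    have := hOs s.symm _ h
    rwa [AlgEquiv.symm_apply_apply] at this
  -- the two classes
  set S1 := O.filter (fun θ => f θ = 1) with hS1
  set S2 := O.filter (fun θ => ¬ f θ = 1) with hS2
  have z01 : ∀ z : ZMod 2, z ≠ 1 → z = 0 := by decide
  have zz : ∀ z w : ZMod 2, z = w + 1 → (z = 1 ↔ ¬ w = 1) := by decide
  set A1 : k'[X] := ∏ θ ∈ S1, (X - C θ) with hA1
  set B1 : k'[X] := ∏ θ ∈ S2, (X - C θ) with hB1
  have hAB : A1 * B1 = S.map ι := by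
    rw [hSprod, hA1, hB1, hS1, hS2, Finset.prod_filter_mul_prod_filter_not]
  have hcase : ∀ s : k' ≃ₐ[k] k',
      ((∀ θ, f (s θ) = f θ) ∧ A1.map (s : k' →+* k') = A1 ∧ B1.map (s : k' →+* k') = B1) ∨
      ((∀ θ, f θ = f (s θ) + (if s θ ∈ O then 1 else 0)) ∧
        A1.map (s : k' →+* k') = B1 ∧ B1.map (s : k' →+* k') = A1) := by
    intro s
    rcases hf s with h | h
    · left
      have hi : ∀ θ, f (s.symm θ) = f θ := by
        intro θ
        have := h (s.symm θ)
        rw [AlgEquiv.apply_symm_apply] at this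
        exact this.symm
      refine ⟨h, map_prod_lin s _ _ ?_ ?_, map_prod_lin s _ _ ?_ ?_⟩
      · intro θ hθ
        rw [hS1, Finset.mem_filter] at hθ ⊢
        exact ⟨hOs s θ hθ.1, by rw [h]; exact hθ.2⟩
      · intro θ hθ
        rw [hS1, Finset.mem_filter] at hθ ⊢
        exact ⟨hOs s.symm θ hθ.1, by rw [hi]; exact hθ.2⟩
      · intro θ hθ
        rw [hS2, Finset.mem_filter] at hθ ⊢
        exact ⟨hOs s θ hθ.1, by rw [h]; exact hθ.2⟩
      · intro θ hθ
        rw [hS2, Finset.mem_filter] at hθ ⊢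
        exact ⟨hOs s.symm θ hθ.1, by rw [hi]; exact hθ.2⟩
    · right
      have h' : ∀ θ, f θ = f (s θ) + (if s θ ∈ O then 1 else 0) := fun θ => by
        rw [← hmult]; exact h θ
      have hi : ∀ θ, θ ∈ O → (f θ = 1 ↔ ¬ f (s θ) = 1) := by
        intro θ hθ
        apply zz
        rw [h' θ, if_pos (hOs s θ hθ)]
      have hi' : ∀ θ, θ ∈ O → (f (s.symm θ) = 1 ↔ ¬ f θ = 1) := by
        intro θ hθ
        have := hi (s.symm θ) (hOs s.symm θ hθ)
        rwa [AlgEquiv.apply_symm_apply] at this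
      refine ⟨h', map_prod_lin s _ _ ?_ ?_, map_prod_lin s _ _ ?_ ?_⟩
      · intro θ hθ
        rw [hS1, Finset.mem_filter] at hθ
        rw [hS2, Finset.mem_filter]
        exact ⟨hOs s θ hθ.1, (hi θ hθ.1).1 hθ.2⟩
      · intro θ hθ
        rw [hS2, Finset.mem_filter] at hθ
        rw [hS1, Finset.mem_filter]
        exact ⟨hOs s.symm θ hθ.1, (hi' θ hθ.1).2 hθ.2⟩
      · intro θ hθ
        rw [hS2, Finset.mem_filter] at hθ
        rw [hS1, Finset.mem_filter]
        refine ⟨hOs s θ hθ.1, ?_⟩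
        by_contra hc
        exact hθ.2 ((hi θ hθ.1).2 hc)
      · intro θ hθ
        rw [hS1, Finset.mem_filter] at hθ
        rw [hS2, Finset.mem_filter]
        exact ⟨hOs s.symm θ hθ.1, fun hc => (hi' θ hθ.1).1 hc hθ.2⟩
  rcases hcase s with ⟨h, -⟩ | ⟨h, hsA, hsB⟩
  · exact h θ
  -- a swap
  exfalso
  have h2' : (2 : k') ≠ 0 := by
    rw [← map_ofNat ι 2]
    exact (_root_.map_ne_zero ι).2 h2
  have hTs : ∀ s : k' ≃ₐ[k] k', (T.map ι).map (s : k' →+* k') = T.map ι := by
    intro s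
    rw [Polynomial.map_map]
    congr 1
    ext x
    exact s.commutes x
  have hCs : ∀ s : k' ≃ₐ[k] k', (C (2⁻¹ : k')).map (s : k' →+* k') = C (2⁻¹ : k') := by
    intro s
    rw [map_C]
    congr 1
    show s (2⁻¹) = 2⁻¹
    rw [map_inv₀, map_ofNat]
  set U' : k'[X] := C (2⁻¹ : k') * (A1 + B1) * T.map ι with hU'
  set W' : k'[X] := C (2⁻¹ : k') * (A1 - B1) * T.map ι with hW'
  have hUW : U' ^ 2 - W' ^ 2 = S.map ι * (T.map ι) ^ 2 := by
    have e4 : C (2⁻¹ : k') * C (2⁻¹ : k') * 4 = 1 := by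
      have : (4 : k'[X]) = C 4 := by rw [map_ofNat]
      rw [this, ← C_mul, ← C_mul]
      have h4 : (2⁻¹ : k') * 2⁻¹ * 4 = 1 := by field_simp; norm_num
      rw [h4, C_1]
    rw [hU', hW', ← hAB]
    linear_combination (A1 * B1 * (T.map ι) ^ 2) * e4
  have hUs : ∀ s : k' ≃ₐ[k] k', U'.map (s : k' →+* k') = U' := by
    intro s
    rw [hU', Polynomial.map_mul, Polynomial.map_mul, Polynomial.map_add, hTs, hCs]
    rcases hcase s with ⟨-, e1, e3⟩ | ⟨-, e1, e3⟩ <;> rw [e1, e3]
    rw [add_comm B1]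
  have hWs : ∀ s : k' ≃ₐ[k] k', W'.map (s : k' →+* k') = W' ∨ W'.map (s : k' →+* k') = -W' := by
    intro s
    rw [hW', Polynomial.map_mul, Polynomial.map_mul, Polynomial.map_sub, hTs, hCs]
    rcases hcase s with ⟨-, e1, e3⟩ | ⟨-, e1, e3⟩ <;> rw [e1, e3]
    · left; rfl
    · right; ring
  have hWsw : W'.map (s : k' →+* k') = -W' := by
    rw [hW', Polynomial.map_mul, Polynomial.map_mul, Polynomial.map_sub, hTs, hCs, hsA, hsB]
    ring
  have hC2 : C (2⁻¹ : k') ≠ 0 := C_ne_zero.2 (inv_ne_zero h2')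
  -- the two classes are different
  have hne : A1 ≠ B1 := by
    intro hAB'
    have hSu : IsUnit A1 := by
      by_contra hu
      have hA0 : A1 ≠ 0 := by
        intro h0
        rw [h0, zero_mul] at hAB
        exact hSn hAB.symm
      apply hu
      have := hSm.squarefree
      rw [← hAB, ← hAB'] at this
      exact this A1 dvd_rfl
    have hmon : A1.Monic := monic_prod_of_monic _ _ fun θ _ => monic_X_sub_C θ
    have hA : A1 = 1 := hmon.eq_one_of_isUnit hSu
    rw [← hAB', hA, one_mul] at hAB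
    have hS1' : S = 1 := by
      apply Polynomial.map_injective ι injk
      rw [← hAB, Polynomial.map_one]
    obtain ⟨h3, -⟩ := hN r 1 T 0 (by rw [hpe, hS1']; ring)
    exact h3 rfl
  have hW0 : W' ≠ 0 := mul_ne_zero (mul_ne_zero hC2 (sub_ne_zero.2 hne)) hTn
  set c := W'.leadingCoeff with hc
  have hc0 : c ≠ 0 := leadingCoeff_ne_zero.2 hW0
  have lc_s : ∀ s : k' ≃ₐ[k] k', (W'.map (s : k' →+* k')).leadingCoeff = s c := by
    intro s
    exact leadingCoeff_map_of_injective s.injective W'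
  have hcs : ∀ s : k' ≃ₐ[k] k', (s c = c ∧ W'.map (s : k' →+* k') = W') ∨
      (s c = -c ∧ W'.map (s : k' →+* k') = -W') := by
    intro s
    rcases hWs s with h3 | h3
    · left
      exact ⟨by rw [← lc_s, h3], h3⟩
    · right
      exact ⟨by rw [← lc_s, h3, leadingCoeff_neg], h3⟩
  obtain ⟨D, hD⟩ : c ^ 2 ∈ Set.range (algebraMap k k') := by
    rw [InfiniteGalois.mem_range_algebraMap_iff_fixed]
    intro s
    rw [map_pow]
    rcases hcs s with ⟨h3, -⟩ | ⟨h3, -⟩ <;> rw [h3]
    ring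
  obtain ⟨U, hU⟩ := desc_poly (k := k) hUs
  obtain ⟨V, hV⟩ := desc_poly (k := k) (P := C c⁻¹ * W') (by
    intro s
    rw [Polynomial.map_mul, map_C]
    have : (s : k' →+* k') c⁻¹ = (s c)⁻¹ := map_inv₀ s c
    rw [this]
    rcases hcs s with ⟨h3, h4⟩ | ⟨h3, h4⟩ <;> rw [h3, h4]
    rw [inv_neg, C_neg]
    ring)
  have hfin : p = C r * (U ^ 2 - C D * V ^ 2) := by
    apply Polynomial.map_injective ι injk
    rw [Polynomial.map_mul, Polynomial.map_sub, Polynomial.map_mul, Polynomial.map_pow,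
      Polynomial.map_pow, hU, hV, map_C, map_C, hD, hpe, Polynomial.map_mul, Polynomial.map_mul,
      Polynomial.map_pow, map_C]
    have e5 : C (c ^ 2) * (C c⁻¹ * W') ^ 2 = W' ^ 2 := by
      rw [mul_pow, ← mul_assoc, ← C_pow, ← C_mul]
      have : c ^ 2 * c⁻¹ ^ 2 = 1 := by field_simp
      rw [this, C_1, one_mul]
    rw [e5, hUW]
    ring
  obtain ⟨-, ⟨e, he⟩⟩ := hN r D U V hfin
  have hce : c = ι e ∨ c = -ι e := by
    apply sq_eq_sq_iff_eq_or_eq_neg.1
    rw [← hD, he, map_mul, pow_two]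
  have hsc : s c = c := by
    rcases hce with h3 | h3
    · rw [h3]; exact s.commutes e
    · rw [h3, map_neg]
      congr 1
      exact s.commutes e
  have hsc' : s c = -c := by
    rw [← lc_s, hWsw, leadingCoeff_neg]
  rw [hsc] at hsc'
  have : (2 : k') * c = 0 := by linear_combination hsc'
  rcases mul_eq_zero.1 this with h3 | h3
  · exact h2' h3
  · exact hc0 h3

variable [Field Ω] [Algebra F Ω] [Algebra K Ω] [IsScalarTower K F Ω] [IsSepClosure F Ω]

include hKF h2 hp hsep hN in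
/-- The global step in one variable. -/
theorem global1 {a0 : F} (n0 : a0 ≠ 0)
    (hloc : ∀ v : HeightOneSpectrum k'[X], p.map (algebraMap k k') ∉ v.asIdeal → par v a0 = 0)
    (hfix : ∀ τ : Ω ≃ₐ[K] Ω, ∃ u : F, u ≠ 0 ∧
      (τ (algebraMap F Ω a0) = algebraMap F Ω (u ^ 2 * a0) ∨
        τ (algebraMap F Ω a0) = algebraMap F Ω
          (u ^ 2 * (a0 * algebraMap K F (algebraMap k[X] K p))))) :
    ∃ A : k[X], A.Monic ∧ Squarefree A ∧ A ∣ p ∧ ∃ c : F, c ≠ 0 ∧
      a0 = c ^ 2 * algebraMap K F (algebraMap k[X] K A) := by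
  haveI : IsSepClosed k' := IsSepClosure.sep_closed k
  haveI : IsGalois k k' := inferInstance
  have injk := (algebraMap k k').injective
  set pp := p.map (algebraMap k k') with hpp
  have hpp0 : pp ≠ 0 := (Polynomial.map_ne_zero_iff injk).2 hp
  have hsplit : pp.Splits := splits_of_sep hp hsep
  have h2' : (2 : k') ≠ 0 := by
    rw [← map_ofNat (algebraMap k k') 2]
    exact (_root_.map_ne_zero _).2 h2
  have hpF : algebraMap K F (algebraMap k[X] K p) ≠ 0 := by simpa using hp
  have key : ∀ (s : k' ≃ₐ[k] k') θ, par (pl (s θ)) a0 = par (pl θ) a0 := by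
    refine no_swapN h2 hp hsep hN (fun θ => par (pl θ) a0) fun s => ?_
    obtain ⟨τ, hτ⟩ := lift (Ω := Ω) hKF s
    obtain ⟨u, hu, hcase⟩ := hfix τ
    rcases hcase with e | e
    · left
      intro θ
      rw [← par_galois τ s hτ n0 e θ, par_sq _ hu n0]
    · right
      intro θ
      have h3 := par_galois τ s hτ n0 e θ
      rw [par_sq _ hu (mul_ne_zero n0 hpF), par_mul _ n0 hpF, par_root hKF p hp] at h3
      exact h3.symm
  set Z : Finset k' := pp.roots.toFinset with hZ
  have hZmem : ∀ θ, θ ∈ Z ↔ pp.IsRoot θ := by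
    intro θ
    rw [hZ, Multiset.mem_toFinset, mem_roots hpp0]
  obtain ⟨c, hc, r⟩ := rep h2' n0 Z (fun v hv => hloc v fun hm => by
    obtain ⟨θ, hθ, h4⟩ := exists_root_of_mem hpp0 hsplit hm
    exact hv θ (Multiset.mem_toFinset.2 hθ) h4)
  have isRoot_gal : ∀ (s : k' ≃ₐ[k] k') (θ : k'), pp.IsRoot θ → pp.IsRoot (s θ) := by
    intro s θ h
    rw [IsRoot.def, hpp, eval_map_algebraMap] at h ⊢
    have h5 : aeval (s θ) p = s (aeval θ p) := Polynomial.aeval_algHom_apply s.toAlgHom θ p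
    rw [h5, h, map_zero]
  set DA := Z.filter (fun θ => par (pl θ) a0 = 1) with hDA
  obtain ⟨A, hA1, hA2⟩ := desc (k := k) DA (fun s θ hθ => by
    rw [hDA, Finset.mem_filter] at hθ ⊢
    refine ⟨(hZmem _).2 (isRoot_gal s θ ((hZmem θ).1 hθ.1)), ?_⟩
    rw [key]
    exact hθ.2)
  refine ⟨A, hA1, ?_, ?_, c, hc, ?_⟩
  · apply Separable.squarefree
    rw [← separable_map (algebraMap k k'), hA2, separable_prod_X_sub_C_iff']
    intro x _ y _ h
    exact h
  · rw [← Polynomial.map_dvd_map' (algebraMap k k'), hA2]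
    have := (Multiset.prod_X_sub_C_dvd_iff_le_roots hpp0 DA.val).2 (by
      rw [Multiset.le_iff_subset DA.nodup]
      intro θ hθ
      exact (mem_roots hpp0).2 ((hZmem θ).1 (Finset.mem_filter.1 hθ).1))
    exact this
  · rw [r, hKF, hA2]

end core

end Pool.Agent.TH115.GD
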