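import Pool.Agent.TH115.ID.Glob
import Pool.Agent.TH115.ID.Step

/-!
Torsion points over `F`, invariance of the Kummer generators, and halves of points which come from
the isogenous curve.
-/

set_option autoImplicit false
set_option linter.all false

open Polynomial IsDedekindDomain WeierstrassCurve WeierstrassCurve.Affine
open scoped Classical

namespace Pool.Agent.TH115.GD

open Pool.Agent.W309.TD (compare)

universe u

section tor

variable {K F Ω : Type u} [Field K] [Field F] [Field Ω] [Algebra K F] [Algebra F Ω] [Algebra K Ω]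
  [IsScalarTower K F Ω] [IsSepClosed Ω] {a b : K} {α β : Ω} (hR : Roots a b Ω α β)

include hR

/-- The points `(α, 0)`, `(β, 0)`. -/
theorem sgn_root {ρ : Ω} (hρ : ρ = α ∨ ρ = β) : ∃ R : Pt (crvT a b) Ω, R + R = 0 ∧
    (2 * ρ + algebraMap K Ω a) ^ 2 = algebraMap K Ω (a ^ 2 - 4 * b) ∧
    2 * ρ + algebraMap K Ω a ≠ 0 ∧ (∃ hn, R = Point.some ρ 0 hn) ∧
    ∀ φ : Ω →ₐ[K] Ω, (act (crvT a b) φ R - R = 0 ∨ act (crvT a b) φ R - R = pt0 hR.E) ∧
      φ (2 * ρ + algebraMap K Ω a) = s1 α (act (crvT a b) φ R - R) *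
        (2 * ρ + algebraMap K Ω a) := by
  have hroot : ρ ^ 2 + algebraMap K Ω a * ρ + algebraMap K Ω b = 0 := by
    rcases hρ with rfl | rfl
    · exact hR.eq0
    · exact hR.eq1
  have hn : ((crvT a b).baseChange Ω).toAffine.Nonsingular ρ 0 := by
    rw [hR.E.nonsingular]
    have : (ρ - α) * (ρ - β) = 0 := by
      linear_combination hroot - ρ * hR.sum + hR.prod
    linear_combination -ρ * this
  have hRR : Point.some ρ 0 hn + Point.some ρ 0 hn = 0 := (add_self_eq_zero_iff hR.E hn).2 rfl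
  refine ⟨Point.some ρ 0 hn, hRR, ?_, ?_, ⟨hn, rfl⟩, fun φ => ?_⟩
  · rw [map_sub, map_mul, map_pow, map_ofNat]
    linear_combination 4 * hroot
  · intro h
    apply hR.E.neab
    rcases hρ with rfl | rfl
    · linear_combination h - hR.sum
    · linear_combination hR.sum - h
  · obtain ⟨h4, h5⟩ := act_some (crvT a b) φ hn
    have hroot' : φ ρ = α ∨ φ ρ = β := by
      apply hR.root
      have := congrArg φ hroot
      rw [map_add, map_add, map_mul, map_pow, φ.commutes, φ.commutes, map_zero] at this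
      exact this
    by_cases hφ : φ ρ = ρ
    · have e : act (crvT a b) φ (Point.some ρ 0 hn) = Point.some ρ 0 hn := by
        rw [h5]
        simp only [hφ, map_zero]
      rw [e, sub_self]
      refine ⟨Or.inl rfl, ?_⟩
      rw [map_add, map_mul, map_ofNat, hφ, φ.commutes]
      show _ = 1 * _
      rw [one_mul]
    · have hRφ : act (crvT a b) φ (Point.some ρ 0 hn) + act (crvT a b) φ (Point.some ρ 0 hn) = 0 :=
        (two_act _ _ _).2 hRR
      have hneg : -(Point.some ρ 0 hn) = Point.some ρ 0 hn := neg_eq_of_add_eq_zero_left hRR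
      have e : act (crvT a b) φ (Point.some ρ 0 hn) - Point.some ρ 0 hn = pt0 hR.E := by
        rw [sub_eq_add_neg, hneg]
        have hρ0 : ρ ≠ 0 := by
          rcases hρ with rfl | rfl
          · exact hR.E.nea
          · exact hR.E.neb
        have hφ0 : φ ρ ≠ 0 := (map_ne_zero φ).2 hρ0
        obtain ⟨a0, a1⟩ := s_addA hR.E hRφ hRR
        refine tor_ext hR.E (by rw [add_add_add_comm, hRφ, hRR, add_zero]) (pt0_two hR.E) ?_ ?_
        · rw [a0, s0_pt0, h5]
          simp [s0, hρ0, hφ0]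
        · rw [a1, s1_pt0, h5]
          have hne := hR.E.neab
          rcases hρ with rfl | rfl
          · have h6 : φ ρ = β := hroot'.resolve_left hφ
            simp [s1, h6, Ne.symm hne]
          · have h6 : φ ρ = α := hroot'.resolve_right hφ
            simp [s1, h6, Ne.symm hne]
      rw [e]
      refine ⟨Or.inr rfl, ?_⟩
      rw [s1_pt0, map_add, map_mul, map_ofNat, φ.commutes]
      rcases hρ with rfl | rfl
      · have h6 : φ ρ = β := hroot'.resolve_left hφ
        rw [h6]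
        linear_combination 2 * hR.sum
      · have h6 : φ ρ = α := hroot'.resolve_right hφ
        rw [h6]
        linear_combination 2 * hR.sum

/-- Halves of points with square abscissa: from a point `(z, y)` of the isogenous curve. -/
theorem half_isog {z y : K} (hz : z ≠ 0)
    (hy : y ^ 2 = z * (z ^ 2 - 2 * a * z + (a ^ 2 - 4 * b))) :
    ∃ (H : Pt (crvT a b) Ω) (t : Ω), t ≠ 0 ∧ t ^ 2 = algebraMap K Ω z ∧
      ∀ φ : Ω →ₐ[K] Ω, (act (crvT a b) φ H - H = 0 ∨ act (crvT a b) φ H - H = pt0 hR.E) ∧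
        φ t = s1 α (act (crvT a b) φ H - H) * t := by
  have h2 := hR.E.two
  haveI : NeZero ((2 : ℕ) : Ω) := ⟨by exact_mod_cast h2⟩
  obtain ⟨s, hs⟩ := IsSepClosed.exists_pow_nat_eq (algebraMap K Ω z) 2
  have hzΩ : algebraMap K Ω z ≠ 0 := (_root_.map_ne_zero _).2 hz
  have hs0 : s ≠ 0 := by
    rintro rfl
    rw [zero_pow two_ne_zero] at hs
    exact hzΩ hs.symm
  have hyΩ : algebraMap K Ω y ^ 2 = algebraMap K Ω z * (algebraMap K Ω z ^ 2 -
      2 * algebraMap K Ω a * algebraMap K Ω z + (algebraMap K Ω a ^ 2 - 4 * algebraMap K Ω b)) := by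
    rw [← map_pow, hy]
    simp only [map_mul, map_add, map_sub, map_pow, map_ofNat]
  set A := algebraMap K Ω a with hA
  set B := algebraMap K Ω b with hB
  set Z := algebraMap K Ω z with hZ
  set Y := algebraMap K Ω y with hY
  set x := (Z - A + Y / s) / 2 with hx
  set x' := (Z - A - Y / s) / 2 with hx'
  have hsum : x + x' = Z - A := by rw [hx, hx']; field_simp; ring
  have hprod : x * x' = B := by
    rw [hx, hx']
    field_simp
    rw [hs]
    linear_combination -hyΩ + (Z - A) ^ 2 * hs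
  have hB0 : B ≠ 0 := by
    rw [hB, ← hR.prod]
    exact mul_ne_zero hR.E.nea hR.E.neb
  have hx0 : x ≠ 0 := by
    intro h
    rw [h, zero_mul] at hprod
    exact hB0 hprod.symm
  have hq : x ^ 2 + A * x + B = Z * x := by linear_combination x * hsum - hprod
  have hn : ((crvT a b).baseChange Ω).toAffine.Nonsingular x (s * x) := by
    rw [hR.E.nonsingular]
    have e : (x - α) * (x - β) = Z * x := by
      linear_combination hq - x * hR.sum + hR.prod
    rw [mul_assoc, e]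
    linear_combination x ^ 2 * hs
  have hy0 : s * x ≠ 0 := mul_ne_zero hs0 hx0
  refine ⟨Point.some x (s * x) hn, s, hs0, hs, fun φ => ?_⟩
  obtain ⟨h4, h5⟩ := act_some (crvT a b) φ hn
  have hφs : φ s = s ∨ φ s = -s := by
    apply sq_eq_sq_iff_eq_or_eq_neg.1
    rw [← map_pow, hs, φ.commutes]
  have hφx : φ x = (Z - A + Y / φ s) / 2 := by
    rw [hx, map_div₀, map_add, map_sub, map_div₀, map_ofNat, hZ, hA, hY, φ.commutes, φ.commutes,
      φ.commutes]
  rcases hφs with h | h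
  · have hxx : φ x = x := by rw [hφx, h]
    have e : act (crvT a b) φ (Point.some x (s * x) hn) = Point.some x (s * x) hn := by
      rw [h5]
      simp only [map_mul, hxx, h]
    rw [e, sub_self]
    refine ⟨Or.inl rfl, ?_⟩
    rw [h]
    show _ = 1 * _
    rw [one_mul]
  · have hxx : φ x = x' := by rw [hφx, h, hx', div_neg]; ring
    obtain ⟨h6, hQ, hadd⟩ := add_pt0 hR.E hn hy0
    have hx'' : x' = α * β / x := by
      rw [hR.prod, eq_div_iff hx0]
      linear_combination hprod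
    have e : act (crvT a b) φ (Point.some x (s * x) hn) = Point.some x (s * x) hn + pt0 hR.E := by
      rw [h5, hadd]
      have ey : φ (s * x) = -(α * β * (s * x)) / x ^ 2 := by
        rw [map_mul, hxx, h, hx'']
        field_simp
      simp only [hxx, hx'', ey]
    have e' : act (crvT a b) φ (Point.some x (s * x) hn) - Point.some x (s * x) hn = pt0 hR.E := by
      rw [e]; abel
    rw [e']
    refine ⟨Or.inr rfl, ?_⟩
    rw [s1_pt0, h]
    ring

variable [IsGalois F Ω] (hbs : ∀ g : F, g ^ 2 ≠ algebraMap K F b)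
  (hds : ∀ g : F, g ^ 2 ≠ algebraMap K F (a ^ 2 - 4 * b))

include hbs hds

/-- The torsion points of 2-power order over `F`. -/
theorem torsF (m : ℕ) : ∀ X : Pt (crvT a b) Ω, (∀ σ : Ω ≃ₐ[F] Ω, act (crvT a b) (rs K σ) X = X) →
    2 ^ m • X = 0 → X = 0 ∨ X = pt0 hR.E := by
  induction m with
  | zero =>
    intro X _ h
    rw [pow_zero, one_smul] at h
    exact Or.inl h
  | succ m ih =>
    intro X hX h
    have h1 : 2 ^ m • (X + X) = 0 := by
      rw [← two_nsmul, smul_smul, ← pow_succ, h]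
    rcases ih (X + X) (fun σ => by rw [map_add, hX]) h1 with h3 | h3
    · by_cases hs : s0 X = 1
      · exact tor_s0 hR.E h3 hs
      · exfalso
        have hs' : s0 X = -1 := (s0_sq X).resolve_left hs
        -- `X` is `(α, 0)` or `(β, 0)`
        obtain ⟨ρ, hρ, hn, hXρ⟩ : ∃ ρ, (ρ = α ∨ ρ = β) ∧ ∃ hn, X = Point.some ρ 0 hn := by
          rcases tor_cases hR.E h3 with ⟨h4, h5, -⟩ | ⟨hn, h4, h5, -⟩ | ⟨hn, h4, -⟩ | ⟨hn, h4, -⟩
          · exact absurd h5 hs
          · exact absurd h5 hs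
          · exact ⟨α, Or.inl rfl, hn, h4⟩
          · exact ⟨β, Or.inr rfl, hn, h4⟩
        obtain ⟨R, -, hsq, -, ⟨hn', hR'⟩, -⟩ := sgn_root hR hρ
        have hfix : ∀ σ : Ω ≃ₐ[F] Ω, σ ρ = ρ := by
          intro σ
          have := hX σ
          rw [hXρ] at this
          obtain ⟨h6, h7⟩ := act_some (crvT a b) (rs K σ) hn
          rw [h7] at this
          exact (Point.some.inj this).1
        obtain ⟨g, hg⟩ : 2 * ρ + algebraMap K Ω a ∈ Set.range (algebraMap F Ω) := by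
          rw [InfiniteGalois.mem_range_algebraMap_iff_fixed]
          intro σ
          rw [map_add, map_mul, map_ofNat, hfix, IsScalarTower.algebraMap_apply K F Ω, σ.commutes]
        apply hds g
        apply (algebraMap F Ω).injective
        rw [map_pow, hg, hsq, IsScalarTower.algebraMap_apply K F Ω]
    · exfalso
      have h4 := h0_sq hR.E X
      rw [h3, hR.d0_eq] at h4
      have h5 : dT (algebraMap K Ω b) (pt0 hR.E) = algebraMap K Ω b := by simp [pt0, dT]
      rw [h5] at h4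
      obtain ⟨g, hg⟩ : h0 α β X ∈ Set.range (algebraMap F Ω) := by
        rw [InfiniteGalois.mem_range_algebraMap_iff_fixed]
        intro σ
        have := hR.h0_act (rs K σ) X
        rw [hX σ] at this
        exact this.symm
      apply hbs g
      apply (algebraMap F Ω).injective
      rw [map_pow, hg, h4, IsScalarTower.algebraMap_apply K F Ω]

/-- Invariance in the first layer. -/
def InvOne (W : WeierstrassCurve K) (f : (Ω ≃ₐ[F] Ω) → Pt W Ω) : Prop :=
  ∀ τ : Ω ≃ₐ[K] Ω, ∃ R : Pt W Ω, (∃ m : ℕ, 2 ^ m • R = 0) ∧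
    ∀ σ σ' : Ω ≃ₐ[F] Ω, (∀ x, τ (σ' x) = σ (τ x)) →
      act W (ak τ) (f σ') - f σ = act W (rs K σ) R - R

theorem inv0 (hN : Preserves K F Ω) {f : (Ω ≃ₐ[F] Ω) → Pt (crvT a b) Ω}
    (hf2 : ∀ σ, f σ + f σ = 0) (hi : InvOne (crvT a b) f) {t0 : Ω} {a0 : F} (n0 : t0 ≠ 0)
    (e0 : t0 ^ 2 = algebraMap F Ω a0) (k0 : ∀ σ, σ t0 = s0 (f σ) * t0) (τ : Ω ≃ₐ[K] Ω) :
    ∃ u : F, u ≠ 0 ∧ (τ (algebraMap F Ω a0) = algebraMap F Ω (u ^ 2 * a0) ∨
      τ (algebraMap F Ω a0) = algebraMap F Ω (u ^ 2 * (a0 * algebraMap K F b))) := by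
  obtain ⟨R, ⟨m, hm⟩, hrel⟩ := hi τ
  have hd : ∀ σ : Ω ≃ₐ[F] Ω, (act (crvT a b) (rs K σ) R - R) +
      (act (crvT a b) (rs K σ) R - R) = 0 := by
    intro σ
    obtain ⟨σ', hσ'⟩ := exists_conj hN τ σ
    rw [← hrel σ σ' hσ']
    have h1 : act (crvT a b) (ak τ) (f σ') + act (crvT a b) (ak τ) (f σ') = 0 :=
      (two_act _ (ak τ) _).2 (hf2 σ')
    rw [sub_add_sub_comm, h1, hf2, sub_zero]
  have hfix : ∀ σ : Ω ≃ₐ[F] Ω, act (crvT a b) (rs K σ) (R + R) = R + R := by
    intro σ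
    have h1 := hd σ
    rw [sub_add_sub_comm, ← map_add] at h1
    exact sub_eq_zero.1 h1
  have hRR : R + R = 0 ∨ R + R = pt0 hR.E := by
    apply torsF hR hbs hds m (R + R) hfix
    rw [← two_nsmul, smul_comm, hm, smul_zero]
  have key : ∀ σ σ' : Ω ≃ₐ[F] Ω, (∀ x, τ (σ' x) = σ (τ x)) →
      act (crvT a b) (ak τ) (f σ') = f σ + (act (crvT a b) (rs K σ) R - R) := by
    intro σ σ' h
    rw [← hrel σ σ' h]; abel
  have s0τ : ∀ P : Pt (crvT a b) Ω, τ (s0 P) = s0 (act (crvT a b) (ak τ) P) :=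
    fun P => (s0_act (crvT a b) (ak τ) P).symm
  obtain ⟨u0, hu0, q0⟩ := compare (K := F) (t := τ t0) (u := t0 * h0 α β R)
    ((map_ne_zero τ).2 n0) (mul_ne_zero n0 (h0_ne hR.E R))
    (fun σ => s0 (f σ) * s0 (act (crvT a b) (rs K σ) R - R))
    (fun σ => mul_ne_zero (s0_ne _) (s0_ne _)) (fun σ => by
      obtain ⟨σ', hσ'⟩ := exists_conj hN τ σ
      rw [← hσ', k0, map_mul, s0τ, key σ σ' hσ', (s_addA hR.E (hf2 σ) (hd σ)).1])
    (fun σ => by
      rw [map_mul, k0, (sign0 hR hfix σ).2]; ring)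
  refine ⟨u0, hu0, ?_⟩
  have e1 : τ (algebraMap F Ω a0) = algebraMap F Ω u0 ^ 2 * (algebraMap F Ω a0 *
      dT (algebraMap K Ω b) (R + R)) := by
    rw [← e0, map_pow, q0, mul_pow, mul_pow, h0_sq hR.E, hR.d0_eq]
  rcases hRR with h | h
  · left
    rw [e1, h, map_mul, map_pow]
    show _ * (_ * 1) = _
    rw [mul_one]
  · right
    have h5 : dT (algebraMap K Ω b) (pt0 hR.E) = algebraMap K Ω b := by simp [pt0, dT]
    rw [e1, h, h5, map_mul, map_mul, map_pow, ← IsScalarTower.algebraMap_apply K F Ω]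

theorem inv1 (hN : Preserves K F Ω) {f : (Ω ≃ₐ[F] Ω) → Pt (crvT a b) Ω}
    (hf2 : ∀ σ, f σ = 0 ∨ f σ = pt0 hR.E) (hi : InvOne (crvT a b) f) {t1 : Ω} {a1 : F}
    (n1 : t1 ≠ 0) (e1 : t1 ^ 2 = algebraMap F Ω a1) (k1 : ∀ σ, σ t1 = s1 α (f σ) * t1)
    (τ : Ω ≃ₐ[K] Ω) :
    ∃ u : F, u ≠ 0 ∧ (τ (algebraMap F Ω a1) = algebraMap F Ω (u ^ 2 * a1) ∨
      τ (algebraMap F Ω a1) = algebraMap F Ω (u ^ 2 * (a1 * algebraMap K F (a ^ 2 - 4 * b)))) := by
  obtain ⟨R, ⟨m, hm⟩, hrel⟩ := hi τ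
  have hf0 : ∀ σ, f σ + f σ = 0 := fun σ => by
    rcases hf2 σ with h | h
    · rw [h, add_zero]
    · rw [h, pt0_two]
  have hne0 : pt0 hR.E ≠ 0 := Point.some_ne_zero _
  have hneg : -(pt0 hR.E) = pt0 hR.E := neg_eq_of_add_eq_zero_left (pt0_two hR.E)
  have hτf : ∀ σ', act (crvT a b) (ak τ) (f σ') = f σ' := fun σ' => by
    rcases hf2 σ' with h | h
    · rw [h, map_zero]
    · rw [h, hR.pt0_act]
  -- the coboundary of `R` has values `0`, `(0, 0)`
  have hd : ∀ σ : Ω ≃ₐ[F] Ω, act (crvT a b) (rs K σ) R - R = 0 ∨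
      act (crvT a b) (rs K σ) R - R = pt0 hR.E := by
    intro σ
    obtain ⟨σ', hσ'⟩ := exists_conj hN τ σ
    rw [← hrel σ σ' hσ', hτf]
    rcases hf2 σ' with h | h <;> rcases hf2 σ with h' | h' <;> rw [h, h']
    · left; rw [sub_self]
    · right; rw [zero_sub, hneg]
    · right; rw [sub_zero]
    · left; rw [sub_self]
  have hd2 : ∀ σ : Ω ≃ₐ[F] Ω, (act (crvT a b) (rs K σ) R - R) +
      (act (crvT a b) (rs K σ) R - R) = 0 := fun σ => by
    rcases hd σ with h | h
    · rw [h, add_zero]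
    · rw [h, pt0_two]
  have hfix : ∀ σ : Ω ≃ₐ[F] Ω, act (crvT a b) (rs K σ) (R + R) = R + R := by
    intro σ
    have h1 := hd2 σ
    rw [sub_add_sub_comm, ← map_add] at h1
    exact sub_eq_zero.1 h1
  have hRR : R + R = 0 := by
    rcases torsF hR hbs hds m (R + R) hfix (by
      rw [← two_nsmul, smul_comm, hm, smul_zero]) with h | h
    · exact h
    · exfalso
      have h4 := h0_sq hR.E R
      have h5 : dT (algebraMap K Ω b) (pt0 hR.E) = algebraMap K Ω b := by simp [pt0, dT]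
      rw [h, hR.d0_eq, h5] at h4
      obtain ⟨g, hg⟩ : h0 α β R ∈ Set.range (algebraMap F Ω) := by
        rw [InfiniteGalois.mem_range_algebraMap_iff_fixed]
        intro σ
        rw [(sign0 hR hfix σ).2]
        rcases hd σ with h' | h'
        · rw [h', s0_zero, one_mul]
        · rw [h', s0_pt0, one_mul]
      apply hbs g
      apply (algebraMap F Ω).injective
      rw [map_pow, hg, h4, IsScalarTower.algebraMap_apply K F Ω]
  have s1τ : ∀ σ', τ (s1 α (f σ')) = s1 α (f σ') := fun σ' => by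
    rcases s1_sq α (f σ') with h | h <;> rw [h] <;> simp
  have key : ∀ σ σ' : Ω ≃ₐ[F] Ω, (∀ x, τ (σ' x) = σ (τ x)) →
      s1 α (f σ') = s1 α (f σ) * s1 α (act (crvT a b) (rs K σ) R - R) := by
    intro σ σ' h
    rw [← (s_addA hR.E (hf0 σ) (hd2 σ)).2, ← hrel σ σ' h, hτf]
    congr 1
    abel
  by_cases hs : s0 R = 1
  · -- `R` is `0` or `(0, 0)`
    have hR0 := tor_s0 hR.E hRR hs
    have hz : ∀ σ : Ω ≃ₐ[F] Ω, act (crvT a b) (rs K σ) R - R = 0 := fun σ => by
      rcases hR0 with h | h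
      · rw [h, map_zero, sub_zero]
      · rw [h, hR.pt0_act, sub_self]
    obtain ⟨u, hu, q⟩ := compare (K := F) (t := τ t1) (u := t1) ((map_ne_zero τ).2 n1) n1
      (fun σ => s1 α (f σ)) (fun σ => s1_ne _ _) (fun σ => by
        obtain ⟨σ', hσ'⟩ := exists_conj hN τ σ
        rw [← hσ', k1, map_mul, s1τ, key σ σ' hσ', hz, s1_zero, mul_one]) k1
    refine ⟨u, hu, Or.inl ?_⟩
    rw [← e1, map_pow, q, mul_pow, e1, map_mul, map_pow]
  · obtain ⟨ρ, hρ, hn, hXρ⟩ : ∃ ρ, (ρ = α ∨ ρ = β) ∧ ∃ hn, R = Point.some ρ 0 hn := by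
      rcases tor_cases hR.E hRR with ⟨h4, h5, -⟩ | ⟨hn, h4, h5, -⟩ | ⟨hn, h4, -⟩ | ⟨hn, h4, -⟩
      · exact absurd h5 hs
      · exact absurd h5 hs
      · exact ⟨α, Or.inl rfl, hn, h4⟩
      · exact ⟨β, Or.inr rfl, hn, h4⟩
    obtain ⟨R', -, hsq, hne, ⟨hn', hR'⟩, hφ⟩ := sgn_root hR hρ
    have hRR' : R' = R := by rw [hR', hXρ]
    rw [hRR'] at hφ
    obtain ⟨u, hu, q⟩ := compare (K := F) (t := τ t1) (u := t1 * (2 * ρ + algebraMap K Ω a))
      ((map_ne_zero τ).2 n1) (mul_ne_zero n1 hne)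
      (fun σ => s1 α (f σ) * s1 α (act (crvT a b) (rs K σ) R - R))
      (fun σ => mul_ne_zero (s1_ne _ _) (s1_ne _ _)) (fun σ => by
        obtain ⟨σ', hσ'⟩ := exists_conj hN τ σ
        rw [← hσ', k1, map_mul, s1τ, key σ σ' hσ']) (fun σ => by
        have h6 : σ (2 * ρ + algebraMap K Ω a) = s1 α (act (crvT a b) (rs K σ) R - R) *
          (2 * ρ + algebraMap K Ω a) := (hφ (rs K σ)).2
        rw [map_mul, k1, h6]; ring)
    refine ⟨u, hu, Or.inr ?_⟩
    rw [← e1, map_pow, q, mul_pow, mul_pow, hsq, e1, map_mul, map_mul, map_pow,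
      ← IsScalarTower.algebraMap_apply K F Ω]

end tor

end Pool.Agent.TH115.GD
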