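import Pool.Agent.TH115.ID.Inv

/-!
The Tate conjecture at 2 for elliptic surfaces with a section of order two.
-/

set_option autoImplicit false
set_option linter.all false

open Polynomial IsDedekindDomain WeierstrassCurve WeierstrassCurve.Affine
open scoped Classical

namespace Pool.Agent.TH115.GD

section nsq

variable {k k' K F : Type} [Field k] [Field k'] [Algebra k k'] [IsSepClosure k k']
  [Field K] [Algebra k[X] K] [IsFractionRing k[X] K] [Field F] [Algebra k'[X] F]
  [IsFractionRing k'[X] F] [Algebra K F]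
  (hKF : ∀ p : k[X], algebraMap K F (algebraMap k[X] K p) =
    algebraMap k'[X] F (p.map (algebraMap k k')))

include hKF in
theorem notSq {p : k[X]} (hp : p ≠ 0)
    (hsep : ∀ π : k[X], Irreducible π → π ∣ p → π.Separable) (hN : NotNorm p) (g : F) :
    g ^ 2 ≠ algebraMap K F (algebraMap k[X] K p) := by
  haveI : IsSepClosed k' := IsSepClosure.sep_closed k
  intro hg
  obtain ⟨r, S, T, hr, hS, hS', hT, hpe⟩ := sq_dec _ p rfl hp
  have injk := (algebraMap k k').injective
  have hS1 : S ≠ 1 := by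
    rintro rfl
    obtain ⟨h3, -⟩ := hN r 1 T 0 (by rw [hpe]; ring)
    exact h3 rfl
  have hu : ¬ IsUnit S := fun h => hS1 (hS.eq_one_of_isUnit h)
  obtain ⟨π, hπ, hd⟩ := WfDvdMonoid.exists_irreducible_factor hu hS.ne_zero
  have hSp : S ∣ p := ⟨C r * T ^ 2, by rw [hpe]; ring⟩
  have hπs : π.Separable := hsep π hπ (hd.trans hSp)
  have hdeg : (π.map (algebraMap k k')).degree ≠ 0 := by
    rw [degree_map]
    exact (Irreducible.degree_pos hπ).ne'
  obtain ⟨θ, hθ⟩ := IsSepClosed.exists_root _ hdeg (hπs.map)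
  have hSsep : S.Separable := sep_of_sqf hS.ne_zero hS' fun π h1 h3 => hsep π h1 (h3.trans hSp)
  have hSn : S.map (algebraMap k k') ≠ 0 := (Polynomial.map_ne_zero_iff injk).2 hS.ne_zero
  have hTn : T.map (algebraMap k k') ≠ 0 := (Polynomial.map_ne_zero_iff injk).2 hT
  have hroot : (S.map (algebraMap k k')).IsRoot θ :=
    hθ.dvd (Polynomial.map_dvd _ hd)
  have hmult : (rootMultiplicity θ (p.map (algebraMap k k')) : ZMod 2) = 1 := by
    have e : p.map (algebraMap k k') = C (algebraMap k k' r) * S.map (algebraMap k k') *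
        T.map (algebraMap k k') ^ 2 := by
      rw [hpe, Polynomial.map_mul, Polynomial.map_mul, Polynomial.map_pow, map_C]
    have hCr : C (algebraMap k k' r) ≠ 0 := C_ne_zero.2 ((_root_.map_ne_zero _).2 hr)
    rw [e, rootMultiplicity_mul (mul_ne_zero (mul_ne_zero hCr hSn) (pow_ne_zero 2 hTn)),
      rootMultiplicity_mul (mul_ne_zero hCr hSn), rootMultiplicity_C, zero_add, pow_two,
      rootMultiplicity_mul (mul_ne_zero hTn hTn), Nat.cast_add, Nat.cast_add]
    have h3 : ((rootMultiplicity θ (T.map (algebraMap k k')) : ℕ) : ZMod 2) +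
        ((rootMultiplicity θ (T.map (algebraMap k k')) : ℕ) : ZMod 2) = 0 := by
      have : ∀ z : ZMod 2, z + z = 0 := by decide
      exact this _
    have h4 : rootMultiplicity θ (S.map (algebraMap k k')) ≤ 1 :=
      rootMultiplicity_le_one_of_separable hSsep.map θ
    have h5 : 0 < rootMultiplicity θ (S.map (algebraMap k k')) := (rootMultiplicity_pos hSn).2 hroot
    have h6 : rootMultiplicity θ (S.map (algebraMap k k')) = 1 := by omega
    rw [h3, add_zero, h6, Nat.cast_one]
  have hg0 : g ≠ 0 := by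
    rintro rfl
    rw [zero_pow two_ne_zero] at hg
    have : algebraMap K F (algebraMap k[X] K p) ≠ 0 := by simpa using hp
    exact this hg.symm
  have h7 := par_root hKF p hp θ
  rw [← hg, par_pow_two _ hg0, hmult] at h7
  exact absurd h7 (by decide)

end nsq

section main

variable {k k' K F : Type} [Field k] [Field k'] [Algebra k k'] [Field K] [Algebra k[X] K]
    [Field F] [Algebra k'[X] F] [IsFractionRing k'[X] F] [Algebra K F]

/-- **The criterion for elliptic surfaces with a section of order two.** -/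
theorem mainT (hT : IsTower k k' K F) (h2 : (2 : k) ≠ 0) {a b : k[X]} (hb : b ≠ 0)
    (hd : a ^ 2 - 4 * b ≠ 0)
    (hsep : ∀ π : k[X], Irreducible π → π ∣ b * (a ^ 2 - 4 * b) → π.Separable)
    (hNb : NotNorm b) (hNd : NotNorm (a ^ 2 - 4 * b))
    (hpA : EnoughPointsT K F a b) (hpB : EnoughPointsT K F (-2 * a) (a ^ 2 - 4 * b)) :
    TateAtTwo (F := F) k' (crvT (algebraMap k[X] K a) (algebraMap k[X] K b)) := by
  haveI := hT.sep
  haveI := hT.fracK
  have hKF := hT.map
  have h2K : (2 : K) ≠ 0 := tt h2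
  have injK := IsFractionRing.injective k[X] K
  set aK := algebraMap k[X] K a with haK
  set bK := algebraMap k[X] K b with hbK
  have hbK0 : bK ≠ 0 := by rw [hbK]; simpa using hb
  have hdK : algebraMap k[X] K (a ^ 2 - 4 * b) = aK ^ 2 - 4 * bK := by
    rw [map_sub, map_mul, map_pow, map_ofNat]
  have hdK0 : aK ^ 2 - 4 * bK ≠ 0 := by
    rw [← hdK]
    intro h
    apply hd
    apply injK
    rw [h, map_zero]
  have hsb : ∀ π : k[X], Irreducible π → π ∣ b → π.Separable :=
    fun π h h' => hsep π h (h'.mul_right _)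
  have hsd : ∀ π : k[X], Irreducible π → π ∣ a ^ 2 - 4 * b → π.Separable :=
    fun π h h' => hsep π h (h'.mul_left _)
  obtain ⟨α, β, hR⟩ := exists_roots (Ω := Sep F) h2K hbK0 hdK0
  have hbs : ∀ g : F, g ^ 2 ≠ algebraMap K F bK := notSq hKF hb hsb hNb
  have hds : ∀ g : F, g ^ 2 ≠ algebraMap K F (aK ^ 2 - 4 * bK) := by
    rw [← hdK]
    exact notSq hKF hd hsd hNd
  haveI : IsSepClosure K (Sep F) := sepKΩ hKF
  haveI : Algebra.IsSeparable K (Sep F) := IsSepClosure.separable
  haveI : IsGalois K (Sep F) := inferInstance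
  have hdiv : ∀ X : Pt (crvT aK bK) (Sep F), ∃ Y, Y + Y = X := halve_sep hR.E
  have hpres : Preserves K F (Sep F) := preserves hKF
  -- valuations
  have vle : ∀ (v : HeightOneSpectrum k'[X]) (p : k[X]),
      v.valuation F (algebraMap K F (algebraMap k[X] K p)) ≤ 1 := by
    intro v p
    rw [hKF]
    exact v.valuation_le_one _
  have vone : ∀ (v : HeightOneSpectrum k'[X]) (p : k[X]),
      p.map (algebraMap k k') ∉ v.asIdeal →
      v.valuation F (algebraMap K F (algebraMap k[X] K p)) = 1 := by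
    intro v p hp
    rw [hKF, v.valuation_of_algebraMap, HeightOneSpectrum.intValuation_eq_one_iff]
    exact hp
  have v2 : ∀ v : HeightOneSpectrum k'[X], v.valuation F 2 ≤ 1 := by
    intro v
    have := vle v 2
    rwa [map_ofNat, map_ofNat] at this
  -- the points of the isogenous curve
  have hE' : ∀ x y : K, ((crvT (algebraMap k[X] K (-2 * a))
      (algebraMap k[X] K (a ^ 2 - 4 * b))).baseChange K).toAffine.Nonsingular x y →
      y ^ 2 = x * (x ^ 2 - 2 * aK * x + (aK ^ 2 - 4 * bK)) := by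
    intro x y hxy
    have h3 := crvT_eq hxy
    have e1 : algebraMap K K (algebraMap k[X] K (-2 * a)) = -2 * aK := by
      rw [map_mul, map_neg, map_ofNat]
      rfl
    have e3 : algebraMap K K (algebraMap k[X] K (a ^ 2 - 4 * b)) = aK ^ 2 - 4 * bK := hdK
    rw [e1, e3] at h3
    rw [h3]
    ring
  refine tate_of_half hdiv fun c hc => ?_
  have hcc := hc.tc
  have hf2 : ∀ σ, c 1 σ + c 1 σ = 0 := fun σ => by
    rw [← two_nsmul, hcc.two 0 σ, hcc.zero]
  -- the first step
  obtain ⟨t0, a0, n0, e0, k0⟩ := kummer0 hR (hcc.coc 1) hf2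
  have ha0 : a0 ≠ 0 := by
    rintro rfl
    rw [map_zero] at e0
    exact pow_ne_zero 2 n0 e0
  have hi0 : InvOne (crvT aK bK) (c 1) := by
    intro τ
    obtain ⟨m, Q, hQ, hinv⟩ := hc.inv τ
    have hpow : ∀ (k : ℕ) (σ), 2 ^ k • c (k + 1) σ = c 1 σ := by
      intro k
      induction k with
      | zero => intro σ; rw [pow_zero, one_smul]
      | succ k ih =>
        intro σ
        rw [pow_succ, mul_smul, hcc.two, ih]
    have hQpow : ∀ (k : ℕ), 2 ^ k • Q k = 0 := by
      intro k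
      induction k with
      | zero => rw [hQ.zero, smul_zero]
      | succ k ih =>
        rw [pow_succ, mul_smul, hQ.two, ih]
    refine ⟨Q (m + 1), ⟨m + 1, hQpow _⟩, fun σ σ' h => ?_⟩
    rw [← hinv (m + 1) σ σ' h, smul_sub, ← map_nsmul, hpow, hpow]
  obtain ⟨A, hA1, hA2, hA3, cA, hcA, rA⟩ := global1 (Ω := Sep F) hKF h2 hb hsb hNb ha0
    (fun v hv => by
      rw [par_eq_zero]
      exact gen0 (F := F) (L := Comp k'[X] F v)
        (Valued.v (R := v.adicCompletion F) (Γ₀ := WithZero (Multiplicative ℤ)))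
        (v.valuation F) (wFin v) (vle v a) (vone v b hv)
        (loc0T hR hf2 ((hc.loc 1).1 v) n0 e0 k0))
    (inv0 hR hbs hds hpres hf2 hi0 n0 e0 k0)
  obtain ⟨PA, uA, huA, sA⟩ := hpA A hA1 hA2 hA3
  obtain ⟨HA, hHA⟩ := hdiv (act (crvT aK bK) (incl K K (Sep F)) PA)
  have PK : ∀ φ : Sep F →ₐ[K] Sep F, act (crvT aK bK) φ (act (crvT aK bK) (incl K K (Sep F)) PA) =
      act (crvT aK bK) (incl K K (Sep F)) PA := by
    intro φ
    have h1 : φ.comp (incl K K (Sep F)) = incl K K (Sep F) := AlgHom.ext fun x => φ.commutes x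
    rw [act_act, h1]
  have hf1 : ∀ σ, c 1 σ - (act (crvT aK bK) (rs K σ) HA - HA) = 0 ∨
      c 1 σ - (act (crvT aK bK) (rs K σ) HA - HA) = pt0 hR.E := by
    refine step0 hR hf2 n0 k0 (fun σ => by rw [hHA]; exact PK _) (c0 := cA * uA) ?_
    rw [hHA]
    have h5 : dT (algebraMap K (Sep F) bK) (act (crvT aK bK) (incl K K (Sep F)) PA) =
        algebraMap K (Sep F) (dT bK PA) := dT_act (crvT aK bK) (incl K K (Sep F)) bK PA
    rw [h5, e0, rA, sA, IsScalarTower.algebraMap_apply K F (Sep F)]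
    simp only [map_mul, map_pow]
    ring
  -- the second step
  set f1 : (Sep F ≃ₐ[F] Sep F) → Pt (crvT aK bK) (Sep F) :=
    fun σ => c 1 σ - (act (crvT aK bK) (rs K σ) HA - HA) with hf1def
  have hf1c : IsCoc (crvT aK bK) f1 := (hcc.coc 1).sub _ (cob_isCoc _ _)
  have hf1l : LocallyTrivial k' (crvT aK bK) f1 := lt_subT (hc.loc 1) HA
  obtain ⟨t1, a1, n1, e1, k1⟩ := kummer1 hR hf1c hf1
  have ha1 : a1 ≠ 0 := by
    rintro rfl
    rw [map_zero] at e1
    exact pow_ne_zero 2 n1 e1
  have hi1 : InvOne (crvT aK bK) f1 := by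
    intro τ
    obtain ⟨R, ⟨m, hm⟩, hrel⟩ := hi0 τ
    have h2H : (act (crvT aK bK) (ak τ) HA - HA) + (act (crvT aK bK) (ak τ) HA - HA) = 0 := by
      rw [sub_add_sub_comm, ← map_add, hHA, PK, sub_self]
    refine ⟨R - (act (crvT aK bK) (ak τ) HA - HA), ⟨m + 1, ?_⟩, fun σ σ' h => ?_⟩
    · rw [smul_sub]
      have h5 : 2 ^ (m + 1) • R = 0 := by rw [pow_succ', mul_smul, hm, smul_zero]
      have h6 : 2 ^ (m + 1) • (act (crvT aK bK) (ak τ) HA - HA) = 0 := by
        rw [pow_succ, mul_smul, two_nsmul, h2H, smul_zero]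
      rw [h5, h6, sub_zero]
    · have h1 := hrel σ σ' h
      have hcomp : act (crvT aK bK) (ak τ) (act (crvT aK bK) (rs K σ') HA) =
          act (crvT aK bK) (rs K σ) (act (crvT aK bK) (ak τ) HA) := by
        have h5 : (ak τ).comp (rs K σ') = (rs K σ).comp (ak τ) := AlgHom.ext fun x => h x
        rw [act_act, act_act, h5]
      show act (crvT aK bK) (ak τ) (c 1 σ' - (act (crvT aK bK) (rs K σ') HA - HA)) -
        (c 1 σ - (act (crvT aK bK) (rs K σ) HA - HA)) =
        act (crvT aK bK) (rs K σ) (R - (act (crvT aK bK) (ak τ) HA - HA)) -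
          (R - (act (crvT aK bK) (ak τ) HA - HA))
      rw [map_sub (act (crvT aK bK) (ak τ)), map_sub (act (crvT aK bK) (ak τ)), hcomp,
        map_sub (act (crvT aK bK) (rs K σ)) R, map_sub (act (crvT aK bK) (rs K σ))]
      have h6 : act (crvT aK bK) (ak τ) (c 1 σ') = c 1 σ + (act (crvT aK bK) (rs K σ) R - R) := by
        rw [← h1]; abel
      rw [h6]
      abel
  obtain ⟨B, hB1, hB2, hB3, cB, hcB, rB⟩ := global1 (Ω := Sep F) hKF h2 hd hsd hNd ha1
    (fun v hv => by
      rw [par_eq_zero]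
      exact gen1 (F := F) (L := Comp k'[X] F v)
        (Valued.v (R := v.adicCompletion F) (Γ₀ := WithZero (Multiplicative ℤ)))
        (v.valuation F) (wFin v) (v2 v) (vle v a) (by rw [← hdK]; exact vone v _ hv)
        (loc1T hR hf1 (hf1l.1 v) n1 e1 k1))
    (by
      rw [hdK]
      exact inv1 hR hbs hds hpres hf1 hi1 n1 e1 k1)
  obtain ⟨PB, uB, huB, sB⟩ := hpB B hB1 hB2 hB3
  -- the point and its half
  obtain ⟨HB, t, ht0, htsq, hφ⟩ : ∃ (H : Pt (crvT aK bK) (Sep F)) (t : Sep F), t ≠ 0 ∧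
      t ^ 2 = algebraMap K (Sep F) (dT (algebraMap k[X] K (a ^ 2 - 4 * b)) PB) ∧
      ∀ φ : Sep F →ₐ[K] Sep F, (act (crvT aK bK) φ H - H = 0 ∨
        act (crvT aK bK) φ H - H = pt0 hR.E) ∧
        φ t = s1 α (act (crvT aK bK) φ H - H) * t := by
    rcases PB with _ | ⟨z, y, hzy⟩
    · refine ⟨0, 1, one_ne_zero, ?_, fun φ => ?_⟩
      · rw [one_pow]; exact (map_one _).symm
      · rw [map_zero, sub_zero]
        refine ⟨Or.inl rfl, ?_⟩
        rw [map_one]
        show _ = 1 * _
        rw [one_mul]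
    · by_cases hz : z = 0
      · obtain ⟨R, -, hsq, hne, -, hφ⟩ := sgn_root hR (Or.inl rfl : α = α ∨ α = β)
        refine ⟨R, _, hne, ?_, hφ⟩
        rw [hsq]
        simp only [dT, hz, if_true]
        rw [hdK]
      · obtain ⟨H, t, ht0, htsq, hφ⟩ := half_isog hR hz (hE' z y hzy)
        refine ⟨H, t, ht0, ?_, hφ⟩
        rw [htsq]
        simp only [dT, hz, if_false]
  obtain ⟨Q, hQ⟩ := fixed_point (K := K) (F := K) (crvT aK bK) (HB + HB) (fun τ => by
    rw [map_add]
    have h5 : act (crvT aK bK) (rs K τ) HB = HB + (act (crvT aK bK) (rs K τ) HB - HB) := by abel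
    rcases (hφ (rs K τ)).1 with h | h
    · rw [sub_eq_zero.1 h]
    · rw [h5, h, add_add_add_comm, pt0_two, add_zero])
  have hfin := step1 hR hf1 n1 k1 (H := HB) (t := t) (fun σ => hφ (rs K σ)) (c1 := cB * uB) (by
    rw [htsq, e1, rB, sB, IsScalarTower.algebraMap_apply K F (Sep F)]
    simp only [map_mul, map_pow]
    ring)
  refine ⟨PA + Q, HA + HB, ?_, fun σ => ?_⟩
  · rw [add_add_add_comm, hHA, map_add, hQ]
  · have h5 : c 1 σ - (act (crvT aK bK) (rs K σ) HA - HA) = act (crvT aK bK) (rs K σ) HB - HB :=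
      hfin σ
    rw [sub_eq_iff_eq_add] at h5
    rw [h5, map_add]
    abel

end main

end Pool.Agent.TH115.GD
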